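import Pool.Agent.V11311.RC.J

/-! Records of the trajectories, part K: the law of the iterates of the first descent map. -/

set_option autoImplicit false

namespace Pool.Agent.V11311.RC

open Finset Filter Topology Pool.Agent.V11311.FP

open Pool.Agent.V11311.DV (fl fl_card mem_fl)

open Pool.Agent.Helper894.Collatz (T od er od_add iter_eq T_even T_odd period)

open Pool.Agent.H377R2 (iter_pos)

open Pool.Agent.Results.MP_2d22f3_nt.CompleteTrajectories (Reaches)

theorem fin_exc {P Q : ℕ → Prop} {l : ℝ} (hP : HasD P l) (L : ℕ) (h : ∀ x, L < x → (P x ↔ Q x)) : HasD Q l := by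
  classical
  have hlow := tail_dens hP (L + 1)
  have hup : Tendsto (fun N : ℕ => (cN P N : ℝ) / N + (L : ℕ) / N) atTop (𝓝 l) := by
    have h2 : Tendsto (fun N : ℕ => ((L : ℕ) : ℝ) / N) atTop (𝓝 0) := tendsto_const_div_atTop_nhds_zero_nat _
    have h3 := hP.add h2
    rw [add_zero] at h3
    exact h3
  refine tendsto_of_tendsto_of_tendsto_of_le_of_le hlow hup ?_ ?_
  · intro N
    apply div_le_div_of_nonneg_right _ (Nat.cast_nonneg N)
    exact Nat.cast_le.2 (cN_mono (fun n _ g => (h n g.2).1 g.1) N)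
  · intro N
    simp only
    rw [← add_div]
    apply div_le_div_of_nonneg_right _ (Nat.cast_nonneg N)
    have h2 : fl Q N ⊆ fl P N ∪ Icc 1 L := by
      intro n hn
      rw [mem_fl] at hn
      rw [mem_union, mem_fl, mem_Icc]
      rcases Nat.lt_or_ge L n with h3 | h3
      · exact Or.inl ⟨hn.1, (h n h3).2 hn.2⟩
      · exact Or.inr ⟨hn.1.1, h3⟩
    have h3 := (card_le_card h2).trans (card_union_le _ _)
    rw [Nat.card_Icc, Nat.add_sub_cancel, fl_card, fl_card] at h3
    rw [← Nat.cast_add]
    exact Nat.cast_le.2 h3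

/-- the density of the integers with stopping time `k` -/
theorem stp_dens (k : ℕ) : HasD (stp k) (prq (2 ^ k) (stpP k)) := by
  classical
  have h1 := per_dens (q := 2 ^ k) (by positivity) (stpP k) (stpP_per k)
  rw [← prq_eq] at h1
  exact fin_exc h1 (k * 4 ^ k) fun x hx => (stp_iff hx).symm

theorem stp_sum : HasSum (fun k => prq (2 ^ k) (stpP k)) 1 := by
  rw [hasSum_iff_tendsto_nat_of_nonneg fun k => prq_nonneg _ _]
  have h1 : ∀ K : ℕ, ∑ k ∈ range (K + 1), prq (2 ^ k) (stpP k) = 1 - pr K (NC K) := by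
    intro K
    induction K with
    | zero =>
      classical
      rw [zero_add, sum_range_one, prq_eq]
      have e1 : (range (2 ^ 0)).filter (stpP 0) = ∅ := by
        rw [filter_eq_empty_iff]
        intro x _ h
        exact absurd h.1 (by omega)
      have e2 : pr 0 (NC 0) = 1 := by
        rw [← prq_pow, prq_eq, filter_true_of_mem, card_range]
        · simp
        · intro x _ i h1 h2
          omega
      rw [e1, e2]
      simp
    | succ K ih =>
      rw [sum_range_succ, ih, stpP_prob (K + 1) (by omega), Nat.add_sub_cancel]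
      ring
  have h2 : Tendsto (fun K : ℕ => 1 - pr K (NC K)) atTop (𝓝 1) := by
    have h3 := NC_summable.tendsto_atTop_zero
    have h4 := h3.const_sub 1
    rw [sub_zero] at h4
    exact h4
  rw [← tendsto_add_atTop_iff_nat 1]
  exact h2.congr fun K => (h1 K).symm

theorem range_Icc (r : ℕ) (B : ℕ → Prop) [DecidablePred B] :
    ((range r).filter B).card ≤ ((Icc 1 r).filter B).card + 1 ∧
    ((Icc 1 r).filter B).card ≤ ((range r).filter B).card + 1 := by
  classical
  constructor
  · have h : (range r).filter B ⊆ ((Icc 1 r).filter B) ∪ {0} := by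
      intro j hj
      rw [mem_filter, mem_range] at hj
      rw [mem_union, mem_filter, mem_Icc, mem_singleton]
      rcases Nat.eq_zero_or_pos j with h1 | h1
      · exact Or.inr h1
      · exact Or.inl ⟨⟨h1, hj.1.le⟩, hj.2⟩
    have := (card_le_card h).trans (card_union_le _ _)
    rwa [card_singleton] at this
  · have h : (Icc 1 r).filter B ⊆ ((range r).filter B) ∪ {r} := by
      intro j hj
      rw [mem_filter, mem_Icc] at hj
      rw [mem_union, mem_filter, mem_range, mem_singleton]
      rcases Nat.lt_or_ge j r with h1 | h1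
      · exact Or.inl ⟨h1, hj.2⟩
      · exact Or.inr (by omega)
    have := (card_le_card h).trans (card_union_le _ _)
    rwa [card_singleton] at this

open scoped Classical in
/-- **the law of the iterates of the first descent map** -/
theorem chain_law {δ ρ : ℝ} (hQ : HasD Reaches δ)
    (hn : ∀ (Q : ℕ) (η : ℝ), 0 < Q → Nat.Coprime Q 3 → 0 < η → HasD (Nrq Q η) δ)
    (hn' : ∀ (M : ℕ) (η : ℝ), 0 < η → HasD (Nrm M η) δ)
    (hρ : Tendsto (fun M => pr M (PC M)) atTop (𝓝 ρ)) (hρ0 : 0 < ρ) {q : ℕ} (hq : 0 < q) (h3 : Nat.Coprime q 3)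
    {A B : ℕ → Prop} (hA : Per q A) {L : ℕ} (hAB : ∀ x, L < x → (B x ↔ A x)) (ε : ℝ) (hε : 0 < ε) :
    HasD (fun n => ∃ t : ℕ, TST n t ∧
      |(((range (Rec n t)).filter fun j => B (S^[j] n)).card : ℝ) - prq q A * Rec n t| ≤ ε * Rec n t) δ := by
  have hl43 : 0 < Real.log (4 / 3) := Real.log_pos (by norm_num)
  set c := 2 / Real.log (4 / 3) with hc
  have hc0 : 0 < c := by positivity
  set e := min (ε * ρ / 8) (min (ρ / 2) (c / 2)) with he
  have he0 : 0 < e := lt_min (by positivity) (lt_min (by positivity) (by positivity))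
  have he1 : e ≤ ε * ρ / 8 := min_le_left _ _
  have he2 : e ≤ ρ / 2 := (min_le_right _ _).trans (min_le_left _ _)
  have he3 : e ≤ c / 2 := (min_le_right _ _).trans (min_le_right _ _)
  have hlaw := recA_law hQ hn hn' hρ hq h3 hA e he0
  have hbig : ∀ᶠ n : ℕ in atTop, (L + 2) * 4 / (ε * ρ) ≤ c / 2 * Real.log n := by
    have h1 : Tendsto (fun n : ℕ => c / 2 * Real.log n) atTop atTop :=
      (Real.tendsto_log_atTop.comp tendsto_natCast_atTop_atTop).const_mul_atTop (by positivity)
    exact h1.eventually (eventually_ge_atTop _)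
  obtain ⟨n0, hn0⟩ := eventually_atTop.1 hbig
  refine sandwich hlaw hQ n0 ?_ (fun n _ g => by obtain ⟨t, ht, _⟩ := g; exact (reach_iff n).2 ⟨t, ht⟩)
  rintro n hnpos hnn0 ⟨t, ht, ht1, hr, hrA⟩
  refine ⟨t, ht, ?_⟩
  have hlog : 0 ≤ Real.log n := Real.log_natCast_nonneg n
  have ht0 : (0 : ℝ) ≤ t := Nat.cast_nonneg t
  have hLt : ((L : ℝ) + 2) * 4 ≤ ε * ρ * t := by
    have g3 := hn0 n hnn0
    have g4 : c / 2 * Real.log n ≤ t := by
      have g5 := (abs_le.1 ht1).1
      have g6 : e * Real.log n ≤ c / 2 * Real.log n := mul_le_mul_of_nonneg_right he3 hlog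
      linarith
    have g5 := g3.trans g4
    rw [div_le_iff₀ (by positivity)] at g5
    linarith
  have hcount := steps_count B n hnpos t ht
  have hd1 := recA_diff (A := B) (B := A) hAB ht
  have hd2 := recA_diff (A := A) (B := B) (fun x hx => (hAB x hx).symm) ht
  have hri := range_Icc (Rec n t) (fun j => B (S^[j] n))
  have hp0 := prq_nonneg q A
  have hp1 := prq_le_one q A
  have k1 : (((range (Rec n t)).filter fun j => B (S^[j] n)).card : ℝ) ≤ RecA A n t + (L + 2) := by
    have : ((range (Rec n t)).filter fun j => B (S^[j] n)).card ≤ RecA A n t + (L + 2) := by omega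
    exact_mod_cast this
  have k2 : (RecA A n t : ℝ) ≤ ((range (Rec n t)).filter fun j => B (S^[j] n)).card + (L + 2) := by
    have : RecA A n t ≤ ((range (Rec n t)).filter fun j => B (S^[j] n)).card + (L + 2) := by omega
    exact_mod_cast this
  have k3 : |prq q A * Rec n t - ρ * prq q A * t| ≤ e * t := by
    have : prq q A * Rec n t - ρ * prq q A * t = prq q A * (Rec n t - ρ * t) := by ring
    rw [this, abs_mul, abs_of_nonneg hp0]
    calc prq q A * |(Rec n t : ℝ) - ρ * t| ≤ 1 * |(Rec n t : ℝ) - ρ * t| :=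
          mul_le_mul_of_nonneg_right hp1 (abs_nonneg _)
      _ ≤ e * t := by rw [one_mul]; exact hr
  have k4 : ρ / 2 * t ≤ Rec n t := by
    have g1 := (abs_le.1 hr).1
    have g2 : e * t ≤ ρ / 2 * t := mul_le_mul_of_nonneg_right he2 ht0
    linarith
  have k5 : e * t ≤ ε * ρ / 8 * t := mul_le_mul_of_nonneg_right he1 ht0
  have k6 : ε * (ρ / 2 * t) ≤ ε * Rec n t := mul_le_mul_of_nonneg_left k4 hε.le
  rw [abs_le] at hrA k3 ⊢
  constructor
  · linarith [hrA.1, k3.2]
  · linarith [hrA.2, k3.1]

end Pool.Agent.V11311.RC
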