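import Pool.Agent.V11311.RC.B

/-! Records of the trajectories, part F: the mean stopping time. -/

set_option autoImplicit false

namespace Pool.Agent.V11311.RC

open Finset Filter Topology Pool.Agent.V11311.FP

open Pool.Agent.Helper894.Collatz (T od er od_add iter_eq)

theorem Wsum_add (j l : ℕ) : ∀ Φ : List ℕ → ℝ, Wsum (j + l) Φ = Wsum j fun u => Wsum l fun v => Φ (u ++ v) := by
  induction l with
  | zero => intro Φ; simp [Wsum]
  | succ l ih =>
    intro Φ
    rw [← Nat.add_assoc, Wsum, ih]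
    congr 1
    funext u
    rw [Wsum]
    congr 1
    funext v
    rw [List.append_assoc, List.append_assoc]

theorem Wsum_congr (j : ℕ) : ∀ Φ Φ' : List ℕ → ℝ, (∀ w, w.length = j → Φ w = Φ' w) → Wsum j Φ = Wsum j Φ' := by
  induction j with
  | zero => intro Φ Φ' h; exact h [] rfl
  | succ j ih =>
    intro Φ Φ' h
    rw [Wsum, Wsum]
    apply ih
    intro w hw
    rw [h (w ++ [0]) (by rw [List.length_append, hw]; rfl), h (w ++ [1]) (by rw [List.length_append, hw]; rfl)]

theorem Wsum_mul (l : ℕ) (c : ℝ) : ∀ Ψ : List ℕ → ℝ, Wsum l (fun v => c * Ψ v) = c * Wsum l Ψ := by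
  induction l with
  | zero => intro Ψ; rfl
  | succ l ih =>
    intro Ψ
    rw [Wsum, Wsum, ← ih]
    congr 1
    funext w
    ring

theorem Wsum_mul' (l : ℕ) (c : ℝ) (Ψ : List ℕ → ℝ) : Wsum l (fun v => Ψ v * c) = Wsum l Ψ * c := by
  rw [mul_comm, ← Wsum_mul]
  congr 1
  funext v
  ring

theorem pw_append (j l x : ℕ) : pw (j + l) x = pw j x ++ pw l (T^[j] x) := by
  induction l with
  | zero => simp [pw]
  | succ l ih =>
    rw [← Nat.add_assoc, pw, ih, pw, List.append_assoc, ← Function.iterate_add_apply, add_comm l j]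

theorem prod_count (j l : ℕ) (Φ Ψ : List ℕ → ℝ) :
    ∑ x ∈ range (2 ^ (j + l)), Φ (pw j x) * Ψ (pw l (T^[j] x))
      = (∑ x ∈ range (2 ^ j), Φ (pw j x)) * ∑ y ∈ range (2 ^ l), Ψ (pw l y) := by
  have h1 : ∀ x, Φ (pw j x) * Ψ (pw l (T^[j] x)) = (fun w : List ℕ => Φ (w.take j) * Ψ (w.drop j)) (pw (j + l) x) := by
    intro x
    simp only
    rw [pw_append, List.take_left' (pw_len j x), List.drop_left' (pw_len j x)]
  rw [sum_congr rfl fun x _ => h1 x, W1 (j + l) (fun w : List ℕ => Φ (w.take j) * Ψ (w.drop j)), Wsum_add,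
    W1 j Φ, W1 l Ψ]
  rw [Wsum_congr j _ (fun u => Φ u * Wsum l Ψ)]
  · exact Wsum_mul' j _ _
  · intro u hu
    rw [← Wsum_mul]
    congr 1
    funext v
    rw [List.take_left' hu, List.drop_left' hu]

open scoped Classical in
/-- words without contracting beginnings -/
noncomputable def Pn (w : List ℕ) : ℝ := if ∀ j, 1 ≤ j → j ≤ w.length → ((w.take j).map lb).sum ≤ 0 then 1 else 0

theorem Pn_pw (M x : ℕ) [Decidable (NC M x)] : Pn (pw M x) = if NC M x then 1 else 0 := by
  unfold Pn
  have h : (∀ j, 1 ≤ j → j ≤ (pw M x).length → (((pw M x).take j).map lb).sum ≤ 0) ↔ NC M x := by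
    unfold NC
    rw [pw_len]
    refine forall_congr' fun i => imp_congr_right fun _ => forall_congr' fun hi => ?_
    rw [pw_take M x hi, pw_sum, ← not_lt, Sx_pos_iff, not_lt]
  by_cases h1 : NC M x
  · rw [if_pos h1, if_pos (h.2 h1)]
  · rw [if_neg h1, if_neg (fun h2 => h1 (h.1 h2))]

theorem Sx_add (j i x : ℕ) : Sx (j + i) x = Sx j x + Sx i (T^[j] x) := by
  unfold Sx
  rw [od_add]
  push_cast
  ring

theorem LR_iff (j x : ℕ) : LR j x ↔ ∀ i < j, Sx i x < Sx j x := by
  unfold LR
  constructor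
  · intro h i hi
    have h1 := h (j - i) (by omega) (by omega)
    rw [← Sx_pos_iff, show j - (j - i) = i by omega] at h1
    have h2 := Sx_add i (j - i) x
    rw [show i + (j - i) = j by omega] at h2
    linarith
  · intro h i hi hij
    rw [← Sx_pos_iff]
    have h1 := h (j - i) (by omega)
    have h2 := Sx_add (j - i) i x
    rw [Nat.sub_add_cancel hij] at h2
    linarith

theorem NC_iff (L j x : ℕ) (hj : j ≤ L) : NC (L - j) (T^[j] x) ↔ ∀ i, j < i → i ≤ L → Sx i x ≤ Sx j x := by
  unfold NC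
  constructor
  · intro h i hi hiL
    have h1 := h (i - j) (by omega) (by omega)
    rw [← not_lt, ← Sx_pos_iff, not_lt] at h1
    have h2 := Sx_add j (i - j) x
    rw [show j + (i - j) = i by omega] at h2
    linarith
  · intro h i hi hiL
    rw [← not_lt, ← Sx_pos_iff, not_lt]
    have h1 := h (j + i) (by omega) (by omega)
    have h2 := Sx_add j i x
    linarith

theorem unique_max (L : ℕ) (f : ℕ → ℝ) : ∃ j0 ≤ L, ∀ j ≤ L,
    ((∀ i < j, f i < f j) ∧ ∀ i, j < i → i ≤ L → f i ≤ f j) ↔ j = j0 := by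
  classical
  obtain ⟨m, hm, hmax⟩ := exists_max_image (range (L + 1)) f nonempty_range_add_one
  have hex : ∃ j, j ≤ L ∧ ∀ i ≤ L, f i ≤ f j :=
    ⟨m, by rw [mem_range] at hm; omega, fun i hi => hmax i (mem_range.2 (by omega))⟩
  obtain ⟨h1, h2⟩ := Nat.find_spec hex
  refine ⟨Nat.find hex, h1, fun j hj => ?_⟩
  have hA : (∀ i < Nat.find hex, f i < f (Nat.find hex)) ∧ ∀ i, Nat.find hex < i → i ≤ L → f i ≤ f (Nat.find hex) := by
    refine ⟨fun i hi => ?_, fun i _ hi => h2 i hi⟩
    have h3 := Nat.find_min hex hi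
    push Not at h3
    obtain ⟨k, hk, hk'⟩ := h3 (by omega)
    exact hk'.trans_le (h2 k hk)
  constructor
  · rintro ⟨h3, h4⟩
    rcases lt_trichotomy j (Nat.find hex) with h | h | h
    · exact absurd (hA.1 j h) (not_lt.2 (h4 _ h h1))
    · exact h
    · exact absurd (h3 _ h) (not_lt.2 (hA.2 j h hj))
  · rintro rfl
    exact hA

/-- the decomposition at the lowest place -/
theorem decomp (L : ℕ) : ∑ j ∈ range (L + 1), pr j (PC j) * pr (L - j) (NC (L - j)) = 1 := by
  classical
  have h1 : ∀ j ∈ range (L + 1), pr j (PC j) * pr (L - j) (NC (L - j))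
      = (∑ x ∈ range (2 ^ L), (if LR j x then (1 : ℝ) else 0) * (if NC (L - j) (T^[j] x) then 1 else 0)) / 2 ^ L := by
    intro j hj
    have hjL : j ≤ L := by rw [mem_range] at hj; omega
    have h2 := prod_count j (L - j) (fun w => Ph w.reverse) Pn
    rw [show j + (L - j) = L by omega] at h2
    simp only [Ph_rev, Pn_pw] at h2
    rw [h2, ← pr_LR]
    unfold pr
    rw [sum_boole, sum_boole, div_mul_div_comm, ← pow_add, show j + (L - j) = L by omega]
  rw [sum_congr rfl h1, ← sum_div, sum_comm]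
  have h2 : ∀ x ∈ range (2 ^ L), ∑ j ∈ range (L + 1), (if LR j x then (1 : ℝ) else 0) *
      (if NC (L - j) (T^[j] x) then 1 else 0) = 1 := by
    intro x _
    obtain ⟨j0, hj0, hj⟩ := unique_max L fun i => Sx i x
    have h3 : ∀ j ∈ range (L + 1), (if LR j x then (1 : ℝ) else 0) * (if NC (L - j) (T^[j] x) then 1 else 0)
        = if j = j0 then 1 else 0 := by
      intro j hjr
      have hjL : j ≤ L := by rw [mem_range] at hjr; omega
      have h4 : (LR j x ∧ NC (L - j) (T^[j] x)) ↔ j = j0 := by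
        rw [LR_iff, NC_iff L j x hjL]
        exact hj j hjL
      by_cases h5 : j = j0
      · rw [if_pos h5, if_pos (h4.2 h5).1, if_pos (h4.2 h5).2, one_mul]
      · rw [if_neg h5]
        by_cases h6 : LR j x
        · rw [if_neg (fun h7 => h5 (h4.1 ⟨h6, h7⟩)), mul_zero]
        · rw [if_neg h6, zero_mul]
    rw [sum_congr rfl h3, sum_ite_eq' (range (L + 1)) j0, if_pos (mem_range.2 (by omega))]
  rw [sum_congr rfl h2, sum_const, card_range, nsmul_eq_mul, mul_one]
  push_cast
  exact div_self (by positivity)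

theorem NC_summable : Summable fun k => pr k (NC k) := by
  apply Summable.of_nonneg_of_le (f := fun k => rh ^ k) (fun k => pr_nonneg k _) _ (summable_geometric_of_lt_one rh_pos.le rh_lt)
  intro k
  rcases Nat.eq_zero_or_pos k with h | h
  · rw [h, pow_zero]
    exact pr_le_one 0 _
  · exact pr_NC k h

/-- **the frequency of the records is the inverse of the mean stopping time** -/
theorem rho_mul {ρ : ℝ} (hρ : Tendsto (fun M => pr M (PC M)) atTop (𝓝 ρ)) : ρ * ∑' k, pr k (NC k) = 1 := by
  classical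
  have h1 : ∀ L : ℕ, ∑' k : ℕ, (if k ≤ L then pr (L - k) (PC (L - k)) * pr k (NC k) else 0) = 1 := by
    intro L
    rw [tsum_eq_sum (s := range (L + 1))]
    · rw [← decomp L, ← sum_range_reflect]
      apply sum_congr rfl
      intro k hk
      rw [mem_range] at hk
      rw [if_pos (by omega), show L + 1 - 1 - k = L - k by omega, show L - (L - k) = k by omega]
    · intro k hk
      rw [mem_range, not_lt] at hk
      rw [if_neg (by omega)]
  have h2 : Tendsto (fun L : ℕ => ∑' k : ℕ, (if k ≤ L then pr (L - k) (PC (L - k)) * pr k (NC k) else 0)) atTop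
      (𝓝 (∑' k : ℕ, ρ * pr k (NC k))) := by
    apply tendsto_tsum_of_dominated_convergence (bound := fun k => pr k (NC k)) NC_summable
    · intro k
      have h3 : Tendsto (fun L : ℕ => pr (L - k) (PC (L - k)) * pr k (NC k)) atTop (𝓝 (ρ * pr k (NC k))) :=
        (hρ.comp (tendsto_sub_atTop_nat k)).mul_const _
      refine h3.congr' ?_
      filter_upwards [eventually_ge_atTop k] with L hL
      rw [if_pos hL]
    · refine Eventually.of_forall fun L k => ?_
      rw [Real.norm_eq_abs]
      split_ifs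
      · rw [abs_of_nonneg (mul_nonneg (pr_nonneg _ _) (pr_nonneg _ _))]
        exact mul_le_of_le_one_left (pr_nonneg _ _) (pr_le_one _ _)
      · rw [abs_zero]
        exact pr_nonneg _ _
  rw [← tsum_mul_left]
  refine tendsto_nhds_unique h2 ?_
  exact tendsto_const_nhds.congr fun L => (h1 L).symm

end Pool.Agent.V11311.RC
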