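import Pool.Agent.V11311.RC.E
import Pool.Agent.V11311.RC.F

/-! Records of the trajectories, part G: densities of the sets of integers with large stopping time. -/

set_option autoImplicit false

namespace Pool.Agent.V11311.RC

open Finset Filter Topology Pool.Agent.V11311.FP

open Pool.Agent.V11311.DV (fl fl_card mem_fl)

open Pool.Agent.Helper894.Collatz (T od er od_add iter_eq T_even T_odd)

open Pool.Agent.H377R2 (iter_pos)

/-- the density of a periodic set -/
theorem per_dens {q : ℕ} (hq : 0 < q) (P : ℕ → Prop) [DecidablePred P] (hP : ∀ n, P (n % q) ↔ P n) :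
    HasD P ((((range q).filter P).card : ℝ) / q) := by
  classical
  set c := ((range q).filter P).card with hc
  have hper : Function.Periodic P q := fun n => by
    rw [eq_iff_iff, ← hP (n + q), Nat.add_mod_right, hP]
  have hq' : (0 : ℝ) < q := by exact_mod_cast hq
  have hstep : ∀ N, cN P (N + q) = cN P N + c := by
    intro N
    have h1 : fl P (N + q) = fl P N ∪ (Ico (N + 1) (N + 1 + q)).filter P := by
      ext n
      rw [mem_union, mem_filter, mem_fl, mem_fl, mem_Ico]
      constructor
      · rintro ⟨⟨h2, h3⟩, h4⟩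
        rcases Nat.lt_or_ge N n with h | h
        · exact Or.inr ⟨⟨by omega, by omega⟩, h4⟩
        · exact Or.inl ⟨⟨h2, h⟩, h4⟩
      · rintro (⟨⟨h2, h3⟩, h4⟩ | ⟨⟨h2, h3⟩, h4⟩)
        · exact ⟨⟨h2, by omega⟩, h4⟩
        · exact ⟨⟨by omega, by omega⟩, h4⟩
    rw [← fl_card, ← fl_card, h1, card_union_of_disjoint]
    · rw [Nat.filter_Ico_card_eq_of_periodic _ _ _ hper, Nat.count_eq_card_filter_range]
    · rw [disjoint_left]
      intro n h2 h3
      rw [mem_fl] at h2
      rw [mem_filter, mem_Ico] at h3
      omega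
  have hb : ∀ N, |(cN P N : ℝ) - N * (c / q)| ≤ 2 * q := by
    intro N
    induction N using Nat.strong_induction_on with
    | _ N ih =>
      rcases Nat.lt_or_ge N q with h | h
      · have h1 : (cN P N : ℝ) ≤ N := by exact_mod_cast cN_le P N
        have h2 : (N : ℝ) ≤ q := by exact_mod_cast h.le
        have h3 : (c : ℝ) ≤ q := by
          have := card_filter_le (range q) P
          rw [card_range] at this
          exact_mod_cast this
        have h4 : (N : ℝ) * (c / q) ≤ q := by
          have h5 : (c : ℝ) / q ≤ 1 := (div_le_one hq').2 h3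
          nlinarith [Nat.cast_nonneg (α := ℝ) N]
        have h5 : 0 ≤ (N : ℝ) * (c / q) := by positivity
        have h6 : (0 : ℝ) ≤ cN P N := Nat.cast_nonneg _
        rw [abs_le]
        constructor <;> linarith
      · have h1 := ih (N - q) (by omega)
        have h2 := hstep (N - q)
        rw [Nat.sub_add_cancel h] at h2
        rw [h2]
        rw [Nat.cast_sub h] at h1
        push_cast
        have h3 : (cN P (N - q) : ℝ) + c - N * (c / q) = cN P (N - q) - (N - q) * (c / q) := by
          field_simp
          ring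
        rw [h3]
        exact h1
  unfold HasD
  rw [tendsto_iff_norm_sub_tendsto_zero]
  have h0 : Tendsto (fun N : ℕ => 2 * (q : ℝ) / N) atTop (𝓝 0) := tendsto_const_div_atTop_nhds_zero_nat _
  refine squeeze_zero' (Eventually.of_forall fun N => norm_nonneg _) ?_ h0
  filter_upwards [eventually_gt_atTop 0] with N hN
  have hN' : (0 : ℝ) < N := by exact_mod_cast hN
  rw [Real.norm_eq_abs, show (cN P N : ℝ) / N - c / q = ((cN P N : ℝ) - N * (c / q)) / N by field_simp,
    abs_div, abs_of_pos hN']
  exact div_le_div_of_nonneg_right (hb N) hN'.le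

/-- the density of the integers whose stopping time is larger than `k` -/
theorem stop_dens (k : ℕ) : HasD (fun n => ∀ i, 1 ≤ i → i ≤ k → n ≤ T^[i] n) (pr k (NC k)) := by
  classical
  have h1 : HasD (NC k) (pr k (NC k)) := by
    have := per_dens (q := 2 ^ k) (by positivity) (NC k) (NC_mod k)
    unfold pr
    push_cast at this
    exact this
  have hlow := tail_dens h1 (k * 4 ^ k + 1)
  have hup : Tendsto (fun N : ℕ => (cN (NC k) N : ℝ) / N + (k * 4 ^ k : ℕ) / N) atTop (𝓝 (pr k (NC k))) := by
    have h2 : Tendsto (fun N : ℕ => ((k * 4 ^ k : ℕ) : ℝ) / N) atTop (𝓝 0) := tendsto_const_div_atTop_nhds_zero_nat _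
    have h3 := h1.add h2
    rw [add_zero] at h3
    exact h3
  refine tendsto_of_tendsto_of_tendsto_of_le_of_le hlow hup ?_ ?_
  · intro N
    apply div_le_div_of_nonneg_right _ (Nat.cast_nonneg N)
    refine Nat.cast_le.2 (cN_mono (fun n _ h i hi hik => ge_of_pow (h.1 i hi hik)) N)
  · intro N
    simp only
    rw [← add_div]
    apply div_le_div_of_nonneg_right _ (Nat.cast_nonneg N)
    have h2 : (fl (fun n => ∀ i, 1 ≤ i → i ≤ k → n ≤ T^[i] n) N) ⊆ fl (NC k) N ∪ Icc 1 (k * 4 ^ k) := by
      intro n hn
      rw [mem_fl] at hn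
      rw [mem_union, mem_fl, mem_Icc]
      rcases Nat.lt_or_ge (k * 4 ^ k) n with h | h
      · left
        refine ⟨hn.1, fun i hi hik => ?_⟩
        by_contra hcon
        push Not at hcon
        exact absurd (lt_of_pow hik h hcon) (not_lt.2 (hn.2 i hi hik))
      · right
        exact ⟨hn.1.1, h⟩
    have h3 := (card_le_card h2).trans (card_union_le _ _)
    rw [Nat.card_Icc, Nat.add_sub_cancel, fl_card, fl_card] at h3
    rw [← Nat.cast_add]
    exact Nat.cast_le.2 h3

end Pool.Agent.V11311.RC
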