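import Pool.Agent.V11311.FP.G

/-! Records of the trajectories, part A: the deterministic estimate. -/

set_option autoImplicit false

namespace Pool.Agent.V11311.RC

open Finset

/-- the minimum over `[0, s]` is attained at a distance of at least `M` -/
def Late (W : ℕ → ℝ) (M s : ℕ) : Prop := ∃ i : ℕ, i + M ≤ s ∧ ∀ k ≤ s, W i ≤ W k

/-- the minimum over `[0, s]` -/
noncomputable def mi (W : ℕ → ℝ) (s : ℕ) : ℝ := (range (s + 1)).inf' nonempty_range_add_one W

theorem mi_le (W : ℕ → ℝ) {s k : ℕ} (h : k ≤ s) : mi W s ≤ W k := inf'_le _ (mem_range.2 (by omega))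

theorem mi_eq (W : ℕ → ℝ) {s i : ℕ} (hi : i ≤ s) (h : ∀ k ≤ s, W i ≤ W k) : mi W s = W i := by
  apply le_antisymm (mi_le W hi)
  apply le_inf'
  intro k hk
  exact h k (by rw [mem_range] at hk; omega)

open scoped Classical in
/-- the height over the minimum, at the late times -/
noncomputable def U (W : ℕ → ℝ) (M s : ℕ) : ℝ := if Late W M s then W s - mi W s else 0

theorem U_nonneg (W : ℕ → ℝ) (M s : ℕ) : 0 ≤ U W M s := by
  unfold U
  split_ifs
  · linarith [mi_le W (le_refl s)]
  · exact le_rfl

theorem climb_le {W : ℕ → ℝ} {t : ℕ} (h1 : ∀ s < t, W (s + 1) ≤ W s + 1) {i s : ℕ} (his : i ≤ s) (hst : s ≤ t) :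
    W s ≤ W i + ((s - i : ℕ) : ℝ) := by
  obtain ⟨d, rfl⟩ := Nat.exists_eq_add_of_le his
  rw [Nat.add_sub_cancel_left]
  induction d with
  | zero => simp
  | succ d ih =>
    have h2 := ih (by omega) (by omega)
    have h3 := h1 (i + d) (by omega)
    rw [← add_assoc]
    push_cast
    linarith

/-- few times are late -/
theorem late_card (W : ℕ → ℝ) (t K M : ℕ) (hK : 0 < K) (hKM : K ≤ M) (h1 : ∀ s < t, W (s + 1) ≤ W s + 1)
    (B N : Finset ℕ) (hB : ∀ s, s + K ≤ t → s ∉ B → W (s + K) - W s ≤ -(K / 40 : ℝ))
    (hN : ∀ i, i + M ≤ t → (∀ k, i < k → k ≤ i + M → W i ≤ W k) → i ∈ N)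
    (G : Finset ℕ) (hG : ∀ s ∈ G, s ≤ t ∧ Late W M s) :
    G.card ≤ 41 * B.card + 81 * M * N.card := by
  classical
  -- the pairs
  set S := range (t + 1 - K) with hS
  set Sa := S.filter fun s => Late W M (s + K) ∧ Late W M s with hSa
  set Sb := S.filter fun s => Late W M (s + K) ∧ ¬ Late W M s with hSb
  have hmemS : ∀ {s : ℕ}, s ∈ S ↔ s + K ≤ t := by
    intro s
    rw [hS, mem_range]
    omega
  -- (b): the times after a long wait
  have hb : Sb ⊆ (N ×ˢ range K).image fun p => p.1 + M - K + p.2 := by
    intro s hs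
    rw [hSb, mem_filter, hmemS] at hs
    obtain ⟨h2, ⟨i, hi, hi'⟩, h3⟩ := hs
    have h4 : s < i + M := by
      by_contra hcon
      push Not at hcon
      exact h3 ⟨i, hcon, fun k hk => hi' k (by omega)⟩
    have h5 : i ∈ N := hN i (by omega) (fun k _ hk => hi' k (by omega))
    rw [mem_image]
    refine ⟨(i, s + K - (i + M)), ?_, ?_⟩
    · rw [mem_product, mem_range]
      exact ⟨h5, by simp only; omega⟩
    · simp only
      omega
  have hbc : Sb.card ≤ K * N.card := by
    refine (card_le_card hb).trans (card_image_le.trans ?_)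
    rw [card_product, card_range, mul_comm]
  -- the increments
  have hinc_a : ∀ s ∈ Sa, U W M (s + K) - U W M s = W (s + K) - W s := by
    intro s hs
    rw [hSa, mem_filter, hmemS] at hs
    obtain ⟨h2, h3, h4⟩ := hs
    unfold U
    rw [if_pos h3, if_pos h4]
    obtain ⟨i, hi, hi'⟩ := h3
    rw [mi_eq W (by omega : i ≤ s + K) hi', mi_eq W (by omega : i ≤ s) (fun k hk => hi' k (by omega))]
    ring
  have hinc_b : ∀ s ∈ Sb, U W M (s + K) - U W M s ≤ 2 * M := by
    intro s hs
    rw [hSb, mem_filter, hmemS] at hs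
    obtain ⟨h2, h3, h4⟩ := hs
    have h3' := h3
    unfold U
    rw [if_pos h3, if_neg h4, sub_zero]
    obtain ⟨i, hi, hi'⟩ := h3
    have h5 : s < i + M := by
      by_contra hcon
      push Not at hcon
      exact h4 ⟨i, hcon, fun k hk => hi' k (by omega)⟩
    rw [mi_eq W (by omega : i ≤ s + K) hi']
    have h6 := climb_le h1 (by omega : i ≤ s + K) h2
    have h7 : ((s + K - i : ℕ) : ℝ) ≤ 2 * M := by
      have h8 : s + K - i ≤ 2 * M := by omega
      exact_mod_cast h8
    linarith
  have hinc_c : ∀ s ∈ S, ¬ Late W M (s + K) → U W M (s + K) - U W M s ≤ 0 := by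
    intro s _ h2
    have h3 := U_nonneg W M s
    have h4 : U W M (s + K) = 0 := by
      unfold U
      rw [if_neg h2]
    linarith
  -- the sum of the increments is nonnegative
  have hsum : 0 ≤ ∑ s ∈ S, (U W M (s + K) - U W M s) := by
    rw [sum_sub_distrib, sub_nonneg]
    by_cases hKt : K ≤ t + 1
    · have e1 : ∑ s ∈ S, U W M (s + K) = ∑ s ∈ Ico K (t + 1), U W M s := by
        rw [sum_Ico_eq_sum_range, hS]
        apply sum_congr rfl
        intro s _
        rw [add_comm]
      have e2 : ∑ s ∈ S, U W M s = ∑ s ∈ S.filter (fun s => K ≤ s), U W M s := by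
        rw [sum_filter]
        apply sum_congr rfl
        intro s _
        split_ifs with h
        · rfl
        · unfold U
          rw [if_neg]
          rintro ⟨i, hi, _⟩
          omega
      rw [e1, e2]
      apply sum_le_sum_of_subset_of_nonneg
      · intro s hs
        rw [mem_filter, hmemS] at hs
        rw [mem_Ico]
        omega
      · intro s _ _
        exact U_nonneg W M s
    · have h2 : S = ∅ := by
        rw [hS, range_eq_empty_iff]
        omega
      rw [h2]
      simp
  -- split
  set Sg := Sa.filter fun s => s ∉ B with hSg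
  have hup : ∑ s ∈ S, (U W M (s + K) - U W M s) ≤ ∑ s ∈ Sg, (-(K / 40 : ℝ)) + ∑ s ∈ B, (K : ℝ) + ∑ s ∈ Sb, (2 * M : ℝ) := by
    have e1 : ∑ s ∈ S, (U W M (s + K) - U W M s) ≤ ∑ s ∈ S, ((if s ∈ Sg then (-(K / 40 : ℝ)) else 0)
        + (if s ∈ B then (K : ℝ) else 0) + (if s ∈ Sb then (2 * M : ℝ) else 0)) := by
      apply sum_le_sum
      intro s hs
      have hK0 : (0 : ℝ) ≤ K := Nat.cast_nonneg K
      have hM0 : (0 : ℝ) ≤ M := Nat.cast_nonneg M
      by_cases h2 : Late W M (s + K)
      · by_cases h3 : Late W M s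
        · have h4 : s ∈ Sa := by rw [hSa, mem_filter]; exact ⟨hs, h2, h3⟩
          have h5 : s ∉ Sb := by rw [hSb, mem_filter]; exact fun h => h.2.2 h3
          rw [if_neg h5, hinc_a s h4]
          by_cases h6 : s ∈ B
          · have h7 : s ∉ Sg := by rw [hSg, mem_filter]; exact fun h => h.2 h6
            rw [if_neg h7, if_pos h6]
            have h8 := climb_le h1 (by omega : s ≤ s + K) (hmemS.1 hs)
            rw [Nat.add_sub_cancel_left] at h8
            linarith
          · have h7 : s ∈ Sg := by rw [hSg, mem_filter]; exact ⟨h4, h6⟩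
            rw [if_pos h7, if_neg h6]
            have h8 := hB s (hmemS.1 hs) h6
            linarith
        · have h4 : s ∈ Sb := by rw [hSb, mem_filter]; exact ⟨hs, h2, h3⟩
          have h5 : s ∉ Sg := by
            rw [hSg, mem_filter, hSa, mem_filter]
            exact fun h => h3 h.1.2.2
          rw [if_pos h4, if_neg h5]
          have h6 := hinc_b s h4
          split_ifs <;> linarith
      · have h5 : s ∉ Sg := by
          rw [hSg, mem_filter, hSa, mem_filter]
          exact fun h => h2 h.1.2.1
        have h6 := hinc_c s hs h2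
        rw [if_neg h5]
        split_ifs <;> linarith
    refine e1.trans ?_
    rw [sum_add_distrib, sum_add_distrib]
    refine add_le_add (add_le_add ?_ ?_) ?_
    · rw [← sum_filter]
      apply le_of_eq
      congr 1
      ext s
      rw [mem_filter]
      constructor
      · exact fun h => h.2
      · intro h
        refine ⟨?_, h⟩
        rw [hSg, mem_filter, hSa, mem_filter] at h
        exact h.1.1
    · rw [← sum_filter]
      apply sum_le_sum_of_subset_of_nonneg
      · intro s hs
        exact (mem_filter.1 hs).2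
      · intro s _ _
        positivity
    · rw [← sum_filter]
      apply sum_le_sum_of_subset_of_nonneg
      · intro s hs
        exact (mem_filter.1 hs).2
      · intro s _ _
        positivity
  rw [sum_const, sum_const, sum_const, nsmul_eq_mul, nsmul_eq_mul, nsmul_eq_mul] at hup
  have hK0 : (0 : ℝ) < K := by exact_mod_cast hK
  have h2 : (Sg.card : ℝ) ≤ 40 * B.card + 80 * M * N.card := by
    have h3 : (Sb.card : ℝ) ≤ K * N.card := by exact_mod_cast hbc
    have h4 : (Sg.card : ℝ) * (K / 40) ≤ B.card * K + Sb.card * (2 * M) := by linarith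
    have h5 : (Sb.card : ℝ) * (2 * M) ≤ K * N.card * (2 * M) := mul_le_mul_of_nonneg_right h3 (by positivity)
    have h6 : (Sg.card : ℝ) * (K / 40) ≤ K * (B.card + N.card * (2 * M)) := by nlinarith
    have h7 : K * ((Sg.card : ℝ) / 40) ≤ K * (B.card + N.card * (2 * M)) := by
      calc K * ((Sg.card : ℝ) / 40) = (Sg.card : ℝ) * (K / 40) := by ring
        _ ≤ _ := h6
    have h8 := le_of_mul_le_mul_left h7 hK0
    linarith
  have h3 : Sg.card ≤ 40 * B.card + 80 * M * N.card := by exact_mod_cast h2
  have hSac : Sa.card ≤ Sg.card + B.card := by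
    have h4 : Sa ⊆ Sg ∪ B := by
      intro s hs
      rw [mem_union]
      by_cases h5 : s ∈ B
      · exact Or.inr h5
      · left
        rw [hSg, mem_filter]
        exact ⟨hs, h5⟩
    exact (card_le_card h4).trans (card_union_le _ _)
  have hGc : G.card ≤ Sa.card + Sb.card := by
    have h4 : G ⊆ (Sa ∪ Sb).image fun s => s + K := by
      intro s hs
      obtain ⟨h5, h6⟩ := hG s hs
      have h7 : K ≤ s := by
        obtain ⟨i, hi, _⟩ := h6
        omega
      rw [mem_image]
      refine ⟨s - K, ?_, Nat.sub_add_cancel h7⟩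
      have h8 : s - K + K = s := Nat.sub_add_cancel h7
      have h9 : s - K ∈ S := hmemS.2 (by omega)
      rw [mem_union]
      by_cases h10 : Late W M (s - K)
      · left
        rw [hSa, mem_filter, h8]
        exact ⟨h9, h6, h10⟩
      · right
        rw [hSb, mem_filter, h8]
        exact ⟨h9, h6, h10⟩
    exact (card_le_card h4).trans (card_image_le.trans (card_union_le _ _))
  have h9 : K * N.card ≤ M * N.card := Nat.mul_le_mul_right _ hKM
  calc G.card ≤ Sa.card + Sb.card := hGc
    _ ≤ (Sg.card + B.card) + K * N.card := Nat.add_le_add hSac hbc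
    _ ≤ (40 * B.card + 80 * M * N.card + B.card) + M * N.card := by omega
    _ = 41 * B.card + 81 * M * N.card := by ring

/-- times which are lower than the `M` times before, but not late, are records -/
theorem rec_of {W : ℕ → ℝ} {M s : ℕ} (hinj : ∀ i < s, W i ≠ W s) (h : ∀ i, s - M ≤ i → i < s → W s < W i)
    (hl : ¬ Late W M s) : ∀ i < s, W s < W i := by
  intro i hi
  obtain ⟨i0, hi0, hmin⟩ := exists_min_image (range (s + 1)) W nonempty_range_add_one
  have h1 : ∀ k ≤ s, W i0 ≤ W k := fun k hk => hmin k (mem_range.2 (by omega))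
  rw [mem_range] at hi0
  rcases Nat.lt_or_ge i0 s with h2 | h2
  · exfalso
    rcases lt_or_ge i0 (s - M) with h3 | h3
    · exact hl ⟨i0, by omega, h1⟩
    · have h4 := h i0 h3 h2
      exact absurd (h1 s le_rfl) (not_le.2 h4)
  · have h3 : i0 = s := by omega
    rw [h3] at h1
    exact lt_of_le_of_ne (h1 i hi.le) (hinj i hi).symm

end Pool.Agent.V11311.RC
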