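import Pool.Agent.V11311.RC.A
import Pool.Agent.V11311.FP.E

/-! Records of the trajectories, part B: classes of residues. -/

set_option autoImplicit false

namespace Pool.Agent.V11311.RC

open Finset Filter Topology Pool.Agent.V11311.FP

open Pool.Agent.Helper894.Collatz (T od er od_add iter_eq sum_pow_od)

/-- the last place is lower than the `M` places before -/
def LR (M x : ℕ) : Prop := ∀ i, 1 ≤ i → i ≤ M → 3 ^ od i (T^[M - i] x) < 2 ^ i

/-- no contraction in `M` steps -/
def NC (M x : ℕ) : Prop := ∀ i, 1 ≤ i → i ≤ M → 2 ^ i ≤ 3 ^ od i x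

/-- the first `M` places are all lower -/
def PC (M x : ℕ) : Prop := ∀ i, 1 ≤ i → i ≤ M → 3 ^ od i x < 2 ^ i

/-- not much contraction -/
def BD (M x : ℕ) : Prop := -(M / 20 : ℝ) < od M x * Real.log 3 - M * Real.log 2

theorem od_last (M x : ℕ) {i : ℕ} (hi : i ≤ M) : od i (T^[M - i] x) = od M x - od (M - i) x := by
  have h := od_add (M - i) i x
  rw [Nat.sub_add_cancel hi] at h
  omega

theorem od_mod (M x : ℕ) {i : ℕ} (hi : i ≤ M) : od i (x % 2 ^ M) = od i x := by
  conv_rhs => rw [← Nat.mod_add_div x (2 ^ M)]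
  rw [od_per M _ _ i hi]

theorem LR_mod (M x : ℕ) : LR M (x % 2 ^ M) ↔ LR M x := by
  unfold LR
  refine forall_congr' fun i => imp_congr_right fun _ => forall_congr' fun hi => ?_
  rw [od_last M _ hi, od_last M _ hi, od_mod M x le_rfl, od_mod M x (by omega)]

theorem NC_mod (M x : ℕ) : NC M (x % 2 ^ M) ↔ NC M x := by
  unfold NC
  refine forall_congr' fun i => imp_congr_right fun _ => forall_congr' fun hi => ?_
  rw [od_mod M x hi]

theorem BD_mod (M x : ℕ) : BD M (x % 2 ^ M) ↔ BD M x := by
  unfold BD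
  rw [od_mod M x le_rfl]

open scoped Classical in
/-- the proportion of the residues with the property `A` -/
noncomputable def pr (M : ℕ) (A : ℕ → Prop) : ℝ := (((range (2 ^ M)).filter A).card : ℝ) / 2 ^ M

theorem pr_nonneg (M : ℕ) (A : ℕ → Prop) : 0 ≤ pr M A := by unfold pr; positivity

theorem pr_le_one (M : ℕ) (A : ℕ → Prop) : pr M A ≤ 1 := by
  classical
  unfold pr
  rw [div_le_one (by positivity)]
  have h := card_filter_le (range (2 ^ M)) A
  rw [card_range] at h
  exact_mod_cast h

theorem pw_len (K x : ℕ) : (pw K x).length = K := by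
  induction K with
  | zero => rfl
  | succ K ih => rw [pw, List.length_append, ih]; rfl

theorem pw_take (K x : ℕ) {j : ℕ} (hj : j ≤ K) : (pw K x).take j = pw j x := by
  induction K with
  | zero =>
    obtain rfl : j = 0 := by omega
    rfl
  | succ K ih =>
    rcases Nat.lt_or_ge j (K + 1) with h | h
    · rw [pw, List.take_append_of_le_length (by rw [pw_len]; omega), ih (by omega)]
    · obtain rfl : j = K + 1 := by omega
      rw [List.take_of_length_le (by rw [pw_len])]

theorem pw_sum (K x : ℕ) : ((pw K x).map lb).sum = Sx K x := by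
  induction K with
  | zero => rw [Sx_zero]; rfl
  | succ K ih =>
    rw [pw, List.map_append, List.sum_append, ih, Sx_succ]
    simp

/-- contraction in terms of logarithms -/
theorem Sx_pos_iff (k x : ℕ) : 0 < Sx k x ↔ 3 ^ od k x < 2 ^ k := by
  have h1 := Sx_exp k x
  rw [← Real.one_lt_exp_iff, h1, one_lt_div (by positivity)]
  constructor
  · intro h; exact_mod_cast h
  · intro h; exact_mod_cast h

open scoped Classical in
/-- words all of whose nonempty beginnings contract -/
noncomputable def Ph (w : List ℕ) : ℝ := if ∀ j, 1 ≤ j → j ≤ w.length → 0 < ((w.take j).map lb).sum then 1 else 0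

theorem Ph_pw (M x : ℕ) [Decidable (PC M x)] : Ph (pw M x) = if PC M x then 1 else 0 := by
  unfold Ph
  have h : (∀ j, 1 ≤ j → j ≤ (pw M x).length → 0 < (((pw M x).take j).map lb).sum) ↔ PC M x := by
    unfold PC
    rw [pw_len]
    refine forall_congr' fun i => imp_congr_right fun _ => forall_congr' fun hi => ?_
    rw [pw_take M x hi, pw_sum, Sx_pos_iff]
  by_cases h1 : PC M x
  · rw [if_pos h1, if_pos (h.2 h1)]
  · rw [if_neg h1, if_neg (fun h2 => h1 (h.1 h2))]

theorem Ph_rev (M x : ℕ) [Decidable (LR M x)] : Ph (pw M x).reverse = if LR M x then 1 else 0 := by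
  unfold Ph
  have h : (∀ j, 1 ≤ j → j ≤ (pw M x).reverse.length → 0 < (((pw M x).reverse.take j).map lb).sum) ↔ LR M x := by
    unfold LR
    rw [List.length_reverse, pw_len]
    refine forall_congr' fun i => imp_congr_right fun _ => forall_congr' fun hi => ?_
    have h1 : (((pw M x).reverse.take i).map lb).sum = Sx i (T^[M - i] x) := by
      rw [List.take_reverse, pw_len, List.map_reverse, List.sum_reverse]
      have h2 := List.sum_take_add_sum_drop ((pw M x).map lb) (M - i)
      rw [← List.map_take, ← List.map_drop, pw_take M x (by omega), pw_sum, pw_sum] at h2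
      have h3 : Sx M x = Sx (M - i) x + Sx i (T^[M - i] x) := by
        unfold Sx
        have h4 := od_add (M - i) i x
        rw [Nat.sub_add_cancel hi] at h4
        rw [h4, Nat.cast_sub hi]
        push_cast
        ring
      linarith
    rw [h1, Sx_pos_iff]
  by_cases h1 : LR M x
  · rw [if_pos h1, if_pos (h.2 h1)]
  · rw [if_neg h1, if_neg (fun h2 => h1 (h.1 h2))]

/-- time reversal -/
theorem pr_LR (M : ℕ) : pr M (LR M) = pr M (PC M) := by
  classical
  unfold pr
  congr 1
  have h := reversal M Ph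
  rw [sum_congr rfl fun x _ => Ph_rev M x, sum_congr rfl fun x _ => Ph_pw M x, sum_boole, sum_boole] at h
  exact h

theorem pr_PC_anti (M : ℕ) : pr (M + 1) (PC (M + 1)) ≤ pr M (PC M) := by
  classical
  unfold pr
  have h1 : ((range (2 ^ (M + 1))).filter (PC (M + 1))).card ≤ 2 * ((range (2 ^ M)).filter (PC M)).card := by
    have h2 : (range (2 ^ (M + 1))).filter (PC (M + 1)) ⊆ ((range (2 ^ M)).filter (PC M)) ∪
        ((range (2 ^ M)).filter (PC M)).image fun x => x + 2 ^ M := by
      intro x hx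
      rw [mem_filter, mem_range] at hx
      obtain ⟨h3, h4⟩ := hx
      have h5 : PC M x := fun i hi hi' => h4 i hi (by omega)
      rw [mem_union, mem_image]
      rcases Nat.lt_or_ge x (2 ^ M) with h6 | h6
      · left
        rw [mem_filter, mem_range]
        exact ⟨h6, h5⟩
      · right
        refine ⟨x - 2 ^ M, ?_, Nat.sub_add_cancel h6⟩
        rw [mem_filter, mem_range]
        refine ⟨by rw [pow_succ] at h3; omega, fun i hi hi' => ?_⟩
        have h7 := od_per M (x - 2 ^ M) 1 i hi'
        rw [mul_one, Nat.sub_add_cancel h6] at h7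
        rw [← h7]
        exact h5 i hi hi'
    calc ((range (2 ^ (M + 1))).filter (PC (M + 1))).card
        ≤ (((range (2 ^ M)).filter (PC M)) ∪ ((range (2 ^ M)).filter (PC M)).image fun x => x + 2 ^ M).card :=
          card_le_card h2
      _ ≤ ((range (2 ^ M)).filter (PC M)).card + (((range (2 ^ M)).filter (PC M)).image fun x => x + 2 ^ M).card :=
          card_union_le _ _
      _ ≤ ((range (2 ^ M)).filter (PC M)).card + ((range (2 ^ M)).filter (PC M)).card :=
          Nat.add_le_add_left card_image_le _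
      _ = 2 * ((range (2 ^ M)).filter (PC M)).card := by ring
  have h2 : (((range (2 ^ (M + 1))).filter (PC (M + 1))).card : ℝ) ≤ 2 * ((range (2 ^ M)).filter (PC M)).card := by
    exact_mod_cast h1
  rw [div_le_div_iff₀ (by positivity) (by positivity)]
  have h3 : (0 : ℝ) < 2 ^ M := by positivity
  have e : (2 : ℝ) ^ (M + 1) = 2 ^ M * 2 := pow_succ _ _
  rw [e]
  nlinarith

/-- the limit -/
theorem rho_exists : ∃ ρ : ℝ, Tendsto (fun M => pr M (PC M)) atTop (𝓝 ρ) ∧ ∀ M, ρ ≤ pr M (PC M) := by
  have ha : Antitone fun M => pr M (PC M) := antitone_nat_of_succ_le fun M => pr_PC_anti M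
  have hb : BddBelow (Set.range fun M => pr M (PC M)) := ⟨0, by rintro _ ⟨K, rfl⟩; exact pr_nonneg K _⟩
  have h := tendsto_atTop_ciInf ha hb
  exact ⟨_, h, fun M => ciInf_le hb M⟩

theorem mgf_bound (M : ℕ) (A : ℕ → Prop) (c : ℝ) (hc : 0 ≤ c)
    (hA : ∀ x, A x → 1 ≤ c ^ M * (Real.sqrt 3 ^ od M x / Real.sqrt 2 ^ M)) : pr M A ≤ (c * rh) ^ M := by
  classical
  unfold pr
  rw [div_le_iff₀ (by positivity)]
  calc (((range (2 ^ M)).filter A).card : ℝ) = ∑ x ∈ (range (2 ^ M)).filter A, (1 : ℝ) := by simp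
    _ ≤ ∑ x ∈ (range (2 ^ M)).filter A, c ^ M * (Real.sqrt 3 ^ od M x / Real.sqrt 2 ^ M) :=
        sum_le_sum fun x hx => hA x (mem_filter.1 hx).2
    _ ≤ ∑ x ∈ range (2 ^ M), c ^ M * (Real.sqrt 3 ^ od M x / Real.sqrt 2 ^ M) :=
        sum_le_sum_of_subset_of_nonneg (filter_subset _ _) (fun x _ _ => by positivity)
    _ = c ^ M * ((1 + Real.sqrt 3) ^ M / Real.sqrt 2 ^ M) := by
        rw [← mul_sum, ← sum_div, sum_pow_od]
    _ = (c * rh) ^ M * 2 ^ M := by
        unfold rh
        rw [← div_pow, ← mul_pow, ← mul_pow]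
        congr 1
        field_simp

theorem sqrt_pow_eq (a : ℝ) (ha : 0 ≤ a) (n : ℕ) : Real.sqrt a ^ n = Real.sqrt (a ^ n) := by
  rw [eq_comm, Real.sqrt_eq_iff_mul_self_eq (by positivity) (by positivity), ← mul_pow, Real.mul_self_sqrt ha]

theorem pr_NC (M : ℕ) (hM : 1 ≤ M) : pr M (NC M) ≤ rh ^ M := by
  have h := mgf_bound M (NC M) 1 zero_le_one (fun x hx => by
    have h1 := hx M hM le_rfl
    have h2 : (2 : ℝ) ^ M ≤ 3 ^ od M x := by exact_mod_cast h1
    rw [one_pow, one_mul, one_le_div (by positivity), sqrt_pow_eq 2 (by norm_num), sqrt_pow_eq 3 (by norm_num)]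
    exact Real.sqrt_le_sqrt h2)
  rwa [one_mul] at h

theorem pr_BD (M : ℕ) : pr M (BD M) ≤ (Real.exp (1 / 40) * rh) ^ M := by
  apply mgf_bound M (BD M) _ (Real.exp_pos _).le
  intro x hx
  unfold BD at hx
  have e3 : Real.sqrt 3 ^ od M x = Real.exp (od M x * (Real.log 3 / 2)) := by
    rw [Real.exp_nat_mul, Real.exp_half, Real.exp_log (by norm_num)]
  have e2 : Real.sqrt 2 ^ M = Real.exp (M * (Real.log 2 / 2)) := by
    rw [Real.exp_nat_mul, Real.exp_half, Real.exp_log (by norm_num)]
  rw [e3, e2, ← Real.exp_sub, ← Real.exp_nat_mul, ← Real.exp_add, Real.one_le_exp_iff]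
  linarith

theorem base_lt : Real.exp (1 / 40) * rh < 1 := by
  have h1 := rh_sq_le
  have h2 := rh_pos
  have h3 : Real.exp (1 / 40) ^ 2 ≤ 1.0514 := by
    rw [← Real.exp_nat_mul]
    have h4 : ((2 : ℕ) : ℝ) * (1 / 40) = 1 / 20 := by norm_num
    rw [h4]
    have h5 := Real.exp_bound' (x := 1 / 20) (by norm_num) (by norm_num) (n := 3) (by norm_num)
    refine h5.trans ?_
    norm_num [Finset.sum_range_succ, Nat.factorial]
  have h4 : (Real.exp (1 / 40) * rh) ^ 2 < 1 := by
    rw [mul_pow]
    have h5 : 0 ≤ Real.exp (1 / 40) ^ 2 := by positivity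
    nlinarith
  by_contra hcon
  push Not at hcon
  nlinarith

theorem BD_lim : Tendsto (fun M => pr M (BD M)) atTop (𝓝 0) := by
  have h0 : 0 ≤ Real.exp (1 / 40) * rh := mul_nonneg (Real.exp_pos _).le rh_pos.le
  exact squeeze_zero (fun M => pr_nonneg M _) (fun M => pr_BD M) (tendsto_pow_atTop_nhds_zero_of_lt_one h0 base_lt)

theorem NC_lim : Tendsto (fun M : ℕ => (M : ℝ) * pr M (NC M)) atTop (𝓝 0) := by
  have h1 : Tendsto (fun M : ℕ => (M : ℝ) * rh ^ M) atTop (𝓝 0) :=
    tendsto_self_mul_const_pow_of_lt_one rh_pos.le rh_lt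
  apply squeeze_zero' (Eventually.of_forall fun M => mul_nonneg (Nat.cast_nonneg M) (pr_nonneg M _)) _ h1
  filter_upwards [eventually_ge_atTop 1] with M hM
  exact mul_le_mul_of_nonneg_left (pr_NC M hM) (Nat.cast_nonneg M)

end Pool.Agent.V11311.RC
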