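import Pool.Agent.V11311.RC.B

/-! Records of the trajectories, part C: counting the records of a trajectory. -/

set_option autoImplicit false

namespace Pool.Agent.V11311.RC

open Finset Filter Topology Pool.Agent.V11311.FP

open Pool.Agent.Helper894.Collatz (T od er od_add iter_eq T_even T_odd)

open Pool.Agent.H377R2 (iter_pos)

/-- `t` is the total stopping time of `n` -/
def TST (n t : ℕ) : Prop := T^[t] n = 1 ∧ ∀ j < t, T^[j] n ≠ 1

theorem TST.unique {n t t' : ℕ} (h : TST n t) (h' : TST n t') : t = t' := by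
  rcases lt_trichotomy t t' with h1 | h1 | h1
  · exact absurd h.1 (h'.2 t h1)
  · exact h1
  · exact absurd h'.1 (h.2 t' h1)

theorem TST.inj {n t : ℕ} (h : TST n t) {i j : ℕ} (hij : i < j) (hj : j ≤ t) : T^[i] n ≠ T^[j] n := by
  intro h1
  apply h.2 (t - j + i) (by omega)
  rw [Function.iterate_add_apply, h1, ← Function.iterate_add_apply, Nat.sub_add_cancel hj, h.1]

/-- the number of the times with the property `A` of the place -/
noncomputable def cl (A : ℕ → Prop) (n t : ℕ) : ℕ := by
  classical exact ((range t).filter fun s => A (T^[s] n)).card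

theorem cl_eq (A : ℕ → Prop) [DecidablePred A] (n t : ℕ) : cl A n t = ((range t).filter fun s => A (T^[s] n)).card := by
  unfold cl
  congr

/-- the frequencies of the residue classes are close to the uniform distribution -/
def Fq (M : ℕ) (η : ℝ) (n t : ℕ) : Prop :=
  ∀ r < 2 ^ M, |(cl (fun x => x % 2 ^ M = r) n t : ℝ) - t / 2 ^ M| ≤ η * t

theorem cl_bound {M : ℕ} {η : ℝ} {n t : ℕ} (h : Fq M η n t) (hη : 0 ≤ η) {A : ℕ → Prop}
    (hA : ∀ x, A (x % 2 ^ M) ↔ A x) : |(cl A n t : ℝ) - pr M A * t| ≤ 2 ^ M * η * t := by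
  classical
  set R := (range (2 ^ M)).filter A with hR
  have h1 : cl A n t = ∑ r ∈ R, cl (fun x => x % 2 ^ M = r) n t := by
    rw [cl_eq]
    rw [card_eq_sum_card_fiberwise (f := fun s => T^[s] n % 2 ^ M) (t := R)]
    · apply sum_congr rfl
      intro r hr
      rw [cl_eq, filter_filter]
      congr 1
      apply filter_congr
      intro s _
      constructor
      · exact fun h => h.2
      · intro h
        refine ⟨?_, h⟩
        rw [← hA, h]
        exact (mem_filter.1 hr).2
    · intro s hs
      rw [mem_coe, mem_filter] at hs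
      rw [mem_coe, hR, mem_filter, mem_range]
      exact ⟨Nat.mod_lt _ (by positivity), (hA _).2 hs.2⟩
  have h2 : pr M A * t = ∑ _r ∈ R, (t : ℝ) / 2 ^ M := by
    unfold pr
    rw [sum_const, nsmul_eq_mul]
    ring
  have h3 : (cl A n t : ℝ) - pr M A * t = ∑ r ∈ R, ((cl (fun x => x % 2 ^ M = r) n t : ℝ) - t / 2 ^ M) := by
    rw [sum_sub_distrib, ← h2, h1]
    push_cast
    rfl
  rw [h3]
  calc |∑ r ∈ R, ((cl (fun x => x % 2 ^ M = r) n t : ℝ) - t / 2 ^ M)|
      ≤ ∑ r ∈ R, |(cl (fun x => x % 2 ^ M = r) n t : ℝ) - t / 2 ^ M| := abs_sum_le_sum_abs _ _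
    _ ≤ ∑ _r ∈ R, η * t := sum_le_sum fun r hr => h r (mem_range.1 (mem_filter.1 hr).1)
    _ = R.card * (η * t) := by rw [sum_const, nsmul_eq_mul]
    _ ≤ 2 ^ M * (η * t) := by
        apply mul_le_mul_of_nonneg_right _ (by positivity)
        have h4 := card_filter_le (range (2 ^ M)) A
        rw [card_range] at h4
        exact_mod_cast h4
    _ = 2 ^ M * η * t := by ring

/-- the number of the records -/
noncomputable def Rec (n t : ℕ) : ℕ := ((Icc 1 t).filter fun s => ∀ i < s, T^[s] n < T^[i] n).card

theorem ge_of_pow {i x : ℕ} (h : 2 ^ i ≤ 3 ^ od i x) : x ≤ T^[i] x := by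
  have h1 := iter_eq i x
  have h2 : 2 ^ i * x ≤ 2 ^ i * T^[i] x := by
    rw [h1]
    exact (Nat.mul_le_mul_right x h).trans (Nat.le_add_right _ _)
  exact Nat.le_of_mul_le_mul_left h2 (by positivity)

theorem lt_of_pow {i M x : ℕ} (hiM : i ≤ M) (hx : M * 4 ^ M < x) (h : 3 ^ od i x < 2 ^ i) : T^[i] x < x := by
  have h1 := iter_eq i x
  have h2 : er i x < x := by
    have h3 := er_le i x
    have h4 : i * 4 ^ i ≤ M * 4 ^ M := Nat.mul_le_mul hiM (Nat.pow_le_pow_right (by norm_num) hiM)
    omega
  have h3 : 2 ^ i * T^[i] x < 2 ^ i * x := by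
    rw [h1]
    have h4 : (3 ^ od i x + 1) * x ≤ 2 ^ i * x := Nat.mul_le_mul_right x h
    rw [add_mul, one_mul] at h4
    omega
  exact Nat.lt_of_mul_lt_mul_left h3

theorem rec_upper {n t L : ℕ} (hL : 1 ≤ L) : Rec n t ≤ L + cl (LR L) n t := by
  classical
  unfold Rec
  have h1 : ((Icc 1 t).filter fun s => ∀ i < s, T^[s] n < T^[i] n) ⊆ range L ∪
      ((range t).filter fun s => LR L (T^[s] n)).image fun s => s + L := by
    intro s hs
    rw [mem_filter, mem_Icc] at hs
    rw [mem_union, mem_range, mem_image]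
    rcases Nat.lt_or_ge s L with h2 | h2
    · exact Or.inl h2
    · right
      refine ⟨s - L, ?_, Nat.sub_add_cancel h2⟩
      rw [mem_filter, mem_range]
      refine ⟨by omega, fun i hi hi' => ?_⟩
      rw [← Function.iterate_add_apply]
      by_contra hcon
      push Not at hcon
      have h3 := ge_of_pow hcon
      rw [← Function.iterate_add_apply] at h3
      have h4 := hs.2 (L - i + (s - L)) (by omega)
      have h5 : i + (L - i + (s - L)) = s := by omega
      rw [h5] at h3
      omega
  refine (card_le_card h1).trans ((card_union_le _ _).trans ?_)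
  rw [card_range, cl_eq]
  exact Nat.add_le_add_left card_image_le _

/-- the small terms -/
theorem small_card {n t : ℕ} (h : TST n t) (Y : ℕ) : ((range (t + 1)).filter fun s => T^[s] n ≤ Y).card ≤ Y + 1 := by
  have h1 : ((range (t + 1)).filter fun s => T^[s] n ≤ Y).card ≤ (range (Y + 1)).card := by
    apply card_le_card_of_injOn (fun s => T^[s] n)
    · intro s hs
      rw [mem_coe, mem_filter] at hs
      rw [mem_coe, mem_range]
      exact Nat.lt_succ_of_le hs.2
    · intro s hs s' hs' he
      rw [mem_coe, mem_filter, mem_range] at hs hs'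
      rcases lt_trichotomy s s' with h2 | h2 | h2
      · exact absurd he (h.inj h2 (by omega))
      · exact h2
      · exact absurd he.symm (h.inj h2 (by omega))
  rwa [card_range] at h1

theorem cl_succ (A : ℕ → Prop) [DecidablePred A] (n t : ℕ) :
    ((range (t + 1)).filter fun s => A (T^[s] n)).card ≤ cl A n t + 1 := by
  rw [cl_eq, range_add_one, filter_insert]
  split_ifs
  · exact card_insert_le _ _
  · exact Nat.le_succ _

theorem T_le (x : ℕ) (hx : 0 < x) : T x ≤ 2 * x := by
  rcases Nat.mod_two_eq_zero_or_one x with h | h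
  · have := T_even h
    omega
  · have := T_odd h
    omega

theorem log_step {n : ℕ} (hn : 0 < n) (s : ℕ) :
    Real.log ((T^[s + 1] n : ℕ) : ℝ) ≤ Real.log ((T^[s] n : ℕ) : ℝ) + 1 := by
  have h1 : 0 < T^[s] n := iter_pos hn s
  have h2 : 0 < T^[s + 1] n := iter_pos hn (s + 1)
  have h3 : T^[s + 1] n ≤ 2 * T^[s] n := by
    rw [Function.iterate_succ_apply']
    exact T_le _ h1
  have h4 : ((T^[s + 1] n : ℕ) : ℝ) ≤ 2 * ((T^[s] n : ℕ) : ℝ) := by exact_mod_cast h3
  have h5 := Real.log_le_log (by exact_mod_cast h2) h4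
  rw [Real.log_mul (by norm_num) (by exact_mod_cast h1.ne')] at h5
  linarith [Real.log_two_lt_d9]

theorem log_window {x K : ℕ} (hK : 0 < K) (hx : 40 * 4 ^ K < x) (h : ¬ BD K x) :
    Real.log ((T^[K] x : ℕ) : ℝ) - Real.log (x : ℝ) ≤ -(K / 40 : ℝ) := by
  have hx0 : 0 < x := by omega
  have hxR : (0 : ℝ) < x := by exact_mod_cast hx0
  have h1 : (2 : ℝ) ^ K * (T^[K] x : ℕ) = 3 ^ od K x * x + er K x := by exact_mod_cast iter_eq K x
  have h2 : (er K x : ℝ) ≤ K / 40 * x := by
    have h3 : (er K x : ℝ) ≤ K * 4 ^ K := by exact_mod_cast er_le K x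
    have h4 : (40 : ℝ) * 4 ^ K ≤ x := by exact_mod_cast hx.le
    have h5 : (0 : ℝ) ≤ K := Nat.cast_nonneg K
    nlinarith
  have h3 : (2 : ℝ) ^ K * (T^[K] x : ℕ) ≤ 3 ^ od K x * x * Real.exp (K / 40) := by
    have h4 : (K / 40 : ℝ) + 1 ≤ Real.exp (K / 40) := Real.add_one_le_exp _
    have h5 : (1 : ℝ) ≤ 3 ^ od K x := one_le_pow₀ (by norm_num)
    have h6 : (K / 40 : ℝ) * x ≤ 3 ^ od K x * x * (K / 40) := by
      have h7 : (0 : ℝ) ≤ K / 40 * x := by positivity
      nlinarith
    have h7 : (0 : ℝ) ≤ 3 ^ od K x * x := by positivity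
    rw [h1]
    nlinarith
  have hT : (0 : ℝ) < (T^[K] x : ℕ) := by exact_mod_cast iter_pos hx0 K
  have h4 := Real.log_le_log (by positivity) h3
  rw [Real.log_mul (by positivity) hT.ne', Real.log_mul (by positivity) (Real.exp_pos _).ne',
    Real.log_mul (by positivity) hxR.ne', Real.log_exp, Real.log_pow, Real.log_pow] at h4
  unfold BD at h
  push Not at h
  linarith

/-- the lower bound for the number of the records -/
theorem rec_lower {n t K M Y : ℕ} (hn : 0 < n) (ht : TST n t) (hK : 0 < K) (hKM : K ≤ M)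
    (hY1 : 40 * 4 ^ K ≤ Y) (hY2 : M * 4 ^ M ≤ Y) :
    cl (LR M) n t ≤ Rec n t + (M + M * (Y + 1)) + (41 * (cl (BD K) n t + (Y + 2)) + 81 * M * (cl (NC M) n t + (Y + 2))) := by
  classical
  set W : ℕ → ℝ := fun s => Real.log ((T^[s] n : ℕ) : ℝ) with hW
  have hpos : ∀ s, 0 < T^[s] n := fun s => iter_pos hn s
  have hWlt : ∀ i j, W i < W j ↔ T^[i] n < T^[j] n := by
    intro i j
    rw [hW]
    simp only
    rw [Real.log_lt_log_iff (by exact_mod_cast hpos i) (by exact_mod_cast hpos j), Nat.cast_lt]
  have hWle : ∀ i j, W i ≤ W j ↔ T^[i] n ≤ T^[j] n := by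
    intro i j
    rw [hW]
    simp only
    rw [Real.log_le_log_iff (by exact_mod_cast hpos i) (by exact_mod_cast hpos j), Nat.cast_le]
  set sm := (range (t + 1)).filter fun s => T^[s] n ≤ Y with hsm
  have hsmc : sm.card ≤ Y + 1 := small_card ht Y
  set B := ((range (t + 1)).filter fun s => BD K (T^[s] n)) ∪ sm with hB
  set N := ((range (t + 1)).filter fun s => NC M (T^[s] n)) ∪ sm with hN
  set G := (range (t + 1)).filter fun s => Late W M s with hG
  have hBc : B.card ≤ cl (BD K) n t + (Y + 2) := by
    have h1 := cl_succ (BD K) n t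
    have h2 := card_union_le ((range (t + 1)).filter fun s => BD K (T^[s] n)) sm
    rw [← hB] at h2
    omega
  have hNc : N.card ≤ cl (NC M) n t + (Y + 2) := by
    have h1 := cl_succ (NC M) n t
    have h2 := card_union_le ((range (t + 1)).filter fun s => NC M (T^[s] n)) sm
    rw [← hN] at h2
    omega
  have hGc : G.card ≤ 41 * B.card + 81 * M * N.card := by
    apply late_card W t K M hK hKM (fun s _ => log_step hn s)
    · intro s hs hsB
      rw [hB, mem_union, not_or, hsm, mem_filter, mem_filter, mem_range] at hsB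
      have h1 : ¬ BD K (T^[s] n) := fun h => hsB.1 ⟨by omega, h⟩
      have h2 : Y < T^[s] n := by
        by_contra hcon
        exact hsB.2 ⟨by omega, not_lt.1 hcon⟩
      have h3 := log_window hK (hY1.trans_lt h2) h1
      rw [← Function.iterate_add_apply, add_comm K s] at h3
      exact h3
    · intro i hi hi'
      rw [hN, mem_union, hsm, mem_filter, mem_filter, mem_range]
      by_cases h2 : T^[i] n ≤ Y
      · exact Or.inr ⟨by omega, h2⟩
      · left
        refine ⟨by omega, fun j hj hjM => ?_⟩
        by_contra hcon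
        push Not at hcon h2
        have h3 := lt_of_pow hjM (hY2.trans_lt h2) hcon
        have h4 := hi' (i + j) (by omega) (by omega)
        rw [hWle, add_comm i j, Function.iterate_add_apply] at h4
        omega
    · intro s hs
      rw [hG, mem_filter, mem_range] at hs
      exact ⟨by omega, hs.2⟩
  -- the places
  have hcov : ((range t).filter fun s => LR M (T^[s] n)) ⊆
      (((range t).filter fun j => t < j + M) ∪ ((sm ×ˢ range M).image fun p => p.1 - p.2)) ∪
      ((G.filter fun s => M ≤ s).image fun s => s - M) ∪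
      ((((Icc 1 t).filter fun s => ∀ i < s, T^[s] n < T^[i] n).filter fun s => M ≤ s).image fun s => s - M) := by
    intro j hj
    rw [mem_filter, mem_range] at hj
    rw [mem_union, mem_union, mem_union, mem_filter, mem_image, mem_image, mem_image, mem_range]
    by_cases h1 : t < j + M
    · left; left; left
      exact ⟨hj.1, h1⟩
    by_cases h2 : ∃ i < M, T^[j + i] n ≤ Y
    · left; left; right
      obtain ⟨i, hi, hi'⟩ := h2
      refine ⟨(j + i, i), ?_, by simp only; omega⟩
      rw [mem_product, hsm, mem_filter, mem_range, mem_range]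
      exact ⟨⟨by simp only; omega, hi'⟩, hi⟩
    push Not at h2
    by_cases h3 : Late W M (j + M)
    · left; right
      refine ⟨j + M, ?_, by omega⟩
      rw [mem_filter, hG, mem_filter, mem_range]
      exact ⟨⟨by omega, h3⟩, by omega⟩
    · right
      refine ⟨j + M, ?_, by omega⟩
      rw [mem_filter, mem_filter, mem_Icc]
      refine ⟨⟨⟨by omega, by omega⟩, ?_⟩, by omega⟩
      have h4 : ∀ i, j + M - M ≤ i → i < j + M → W (j + M) < W i := by
        intro i hi hi'
        rw [hWlt]
        have h5 := hj.2 (j + M - i) (by omega) (by omega)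
        have h6 : M - (j + M - i) = i - j := by omega
        rw [h6, ← Function.iterate_add_apply, Nat.sub_add_cancel (by omega)] at h5
        have h7 := h2 (i - j) (by omega)
        rw [show j + (i - j) = i by omega] at h7
        have h8 := lt_of_pow (by omega : j + M - i ≤ M) (hY2.trans_lt h7) h5
        rw [← Function.iterate_add_apply, show j + M - i + i = j + M by omega] at h8
        exact h8
      have h5 := rec_of (W := W) (M := M) (s := j + M) (fun i hi h => ?_) h4 h3
      · intro i hi
        exact (hWlt _ _).1 (h5 i hi)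
      · have h6 := ht.inj hi (by omega)
        have h7 : T^[i] n = T^[j + M] n := le_antisymm ((hWle _ _).1 h.le) ((hWle _ _).1 h.ge)
        exact h6 h7
  have h1 : ((range t).filter fun j => t < j + M).card ≤ M := by
    have h2 : ((range t).filter fun j => t < j + M) ⊆ Ico (t - M) t := by
      intro j hj
      rw [mem_filter, mem_range] at hj
      rw [mem_Ico]
      omega
    refine (card_le_card h2).trans ?_
    rw [Nat.card_Ico]
    omega
  have h2 : ((sm ×ˢ range M).image fun p => p.1 - p.2).card ≤ M * (Y + 1) := by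
    refine card_image_le.trans ?_
    rw [card_product, card_range, mul_comm]
    exact Nat.mul_le_mul_left _ hsmc
  have h3 : ((G.filter fun s => M ≤ s).image fun s => s - M).card ≤ G.card :=
    card_image_le.trans (card_filter_le _ _)
  have h4 : ((((Icc 1 t).filter fun s => ∀ i < s, T^[s] n < T^[i] n).filter fun s => M ≤ s).image fun s => s - M).card
      ≤ Rec n t := card_image_le.trans (card_filter_le _ _)
  have h5 := card_le_card hcov
  have h0 := cl_eq (LR M) n t
  have h6 := card_union_le ((((range t).filter fun j => t < j + M) ∪ ((sm ×ˢ range M).image fun p => p.1 - p.2)) ∪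
      ((G.filter fun s => M ≤ s).image fun s => s - M))
      ((((Icc 1 t).filter fun s => ∀ i < s, T^[s] n < T^[i] n).filter fun s => M ≤ s).image fun s => s - M)
  have h7 := card_union_le (((range t).filter fun j => t < j + M) ∪ ((sm ×ˢ range M).image fun p => p.1 - p.2))
      ((G.filter fun s => M ≤ s).image fun s => s - M)
  have h8 := card_union_le ((range t).filter fun j => t < j + M) ((sm ×ˢ range M).image fun p => p.1 - p.2)
  have h9 : 41 * B.card + 81 * M * N.card ≤ 41 * (cl (BD K) n t + (Y + 2)) + 81 * M * (cl (NC M) n t + (Y + 2)) :=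
    Nat.add_le_add (Nat.mul_le_mul_left _ hBc) (Nat.mul_le_mul_left _ hNc)
  omega

end Pool.Agent.V11311.RC
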