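import Pool.Agent.V11311.RC.C

/-! Records of the trajectories, part D: the first descent map. -/

set_option autoImplicit false

namespace Pool.Agent.V11311.RC

open Finset Filter Topology Pool.Agent.V11311.FP

open Pool.Agent.Helper894.Collatz (T od er od_add iter_eq T_even T_odd)

open Pool.Agent.H377R2 (iter_pos)

/-- the first term of the trajectory which is smaller than `n` -/
noncomputable def S (n : ℕ) : ℕ := T^[sInf {k : ℕ | 0 < k ∧ T^[k] n < n}] n

theorem steps_aux (n : ℕ) : 0 < n → ∀ t : ℕ, TST n t → S^[Rec n t] n = 1 ∧ ∀ j < Rec n t, S^[j] n ≠ 1 := by
  classical
  induction n using Nat.strong_induction_on with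
  | _ n ih =>
    intro hn t ht
    rcases Nat.lt_or_ge 1 n with h1 | h1
    · -- the first descent
      have htpos : 0 < t := by
        rcases Nat.eq_zero_or_pos t with h | h
        · exfalso
          have h2 := ht.1
          rw [h] at h2
          simp only [Function.iterate_zero, id_eq] at h2
          omega
        · exact h
      set A := {k : ℕ | 0 < k ∧ T^[k] n < n} with hA
      have hne : A.Nonempty := ⟨t, htpos, by rw [ht.1]; exact h1⟩
      obtain ⟨hσ0, hσ1⟩ := Nat.sInf_mem hne
      have hmin : ∀ k, 0 < k → k < sInf A → n ≤ T^[k] n := by
        intro k hk hk'
        by_contra hcon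
        push Not at hcon
        exact absurd (Nat.sInf_le (show k ∈ A from ⟨hk, hcon⟩)) (not_le.2 hk')
      have hσt : sInf A ≤ t := Nat.sInf_le (show t ∈ A from ⟨htpos, by rw [ht.1]; exact h1⟩)
      set σ := sInf A with hσ
      have hSn : S n = T^[σ] n := rfl
      set m := T^[σ] n with hm
      have hm0 : 0 < m := iter_pos hn σ
      have htm : TST m (t - σ) := by
        refine ⟨by rw [hm, ← Function.iterate_add_apply, Nat.sub_add_cancel hσt, ht.1], fun j hj => ?_⟩
        rw [hm, ← Function.iterate_add_apply]
        exact ht.2 _ (by omega)
      obtain ⟨h2, h3⟩ := ih m hσ1 hm0 (t - σ) htm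
      have hrec : Rec n t = Rec m (t - σ) + 1 := by
        have e1 : ((Icc 1 t).filter fun s => ∀ i < s, T^[s] n < T^[i] n) =
            insert σ (((Icc 1 (t - σ)).filter fun s => ∀ i < s, T^[s] m < T^[i] m).image fun s => s + σ) := by
          ext s
          rw [mem_insert, mem_filter, mem_image, mem_Icc]
          constructor
          · rintro ⟨⟨h4, h5⟩, h6⟩
            rcases lt_trichotomy s σ with h7 | h7 | h7
            · exfalso
              have h8 := hmin s (by omega) h7
              have h9 := h6 0 (by omega)
              simp only [Function.iterate_zero, id_eq] at h9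
              omega
            · exact Or.inl h7
            · right
              refine ⟨s - σ, ?_, Nat.sub_add_cancel h7.le⟩
              rw [mem_filter, mem_Icc]
              refine ⟨⟨by omega, by omega⟩, fun i hi => ?_⟩
              rw [hm, ← Function.iterate_add_apply, ← Function.iterate_add_apply, Nat.sub_add_cancel h7.le]
              exact h6 _ (by omega)
          · rintro (rfl | ⟨s', h4, rfl⟩)
            · refine ⟨⟨hσ0, hσt⟩, fun i hi => ?_⟩
              rcases Nat.eq_zero_or_pos i with h5 | h5
              · rw [h5]
                exact hσ1
              · exact hσ1.trans_le (hmin i h5 hi)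
            · rw [mem_filter, mem_Icc] at h4
              refine ⟨⟨by omega, by omega⟩, fun i hi => ?_⟩
              rw [Function.iterate_add_apply]
              rcases Nat.lt_or_ge i σ with h5 | h5
              · have h6 := h4.2 0 (by omega)
                simp only [Function.iterate_zero, id_eq] at h6
                rcases Nat.eq_zero_or_pos i with h7 | h7
                · rw [h7]
                  exact h6.trans hσ1
                · exact (h6.trans hσ1).trans_le (hmin i h7 h5)
              · have h6 := h4.2 (i - σ) (by omega)
                rw [hm, ← Function.iterate_add_apply (m := i - σ), Nat.sub_add_cancel h5] at h6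
                exact h6
        unfold Rec
        rw [e1, card_insert_of_notMem, card_image_of_injective _ (add_left_injective σ)]
        rw [mem_image]
        rintro ⟨s, h4, h5⟩
        rw [mem_filter, mem_Icc] at h4
        omega
      rw [hrec]
      refine ⟨by rw [Function.iterate_succ_apply, hSn]; exact h2, fun j hj => ?_⟩
      cases j with
      | zero =>
        simp only [Function.iterate_zero, id_eq]
        omega
      | succ j =>
        rw [Function.iterate_succ_apply, hSn]
        exact h3 j (by omega)
    · -- `n = 1`
      obtain rfl : n = 1 := by omega
      have h2 : t = 0 := by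
        by_contra hcon
        exact ht.2 0 (by omega) rfl
      have h3 : Rec 1 t = 0 := by
        rw [h2]
        unfold Rec
        simp
      rw [h3]
      exact ⟨rfl, fun j hj => absurd hj (Nat.not_lt_zero j)⟩

end Pool.Agent.V11311.RC
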