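import Pool.Agent.V11311.RC.G

/-! Records of the trajectories, part H: residue classes for general moduli. -/

set_option autoImplicit false

namespace Pool.Agent.V11311.RC

open Finset Filter Topology Pool.Agent.V11311.FP

open Pool.Agent.V11311.DV (fl fl_card mem_fl)

open Pool.Agent.Helper894.Collatz (T od er od_add iter_eq T_even T_odd period)

open Pool.Agent.H377R2 (iter_pos)

open Pool.Agent.Results.MP_2d22f3_nt.CompleteTrajectories (HasDensity visits Reaches count)

open scoped Classical in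
/-- the proportion of the residues modulo `Q` with the property `A` -/
noncomputable def prq (Q : ℕ) (A : ℕ → Prop) : ℝ := (((range Q).filter A).card : ℝ) / Q

/-- `A` is a union of residue classes modulo `Q` -/
def Per (Q : ℕ) (A : ℕ → Prop) : Prop := ∀ x, A (x % Q) ↔ A x

theorem prq_eq (Q : ℕ) (A : ℕ → Prop) [DecidablePred A] : prq Q A = (((range Q).filter A).card : ℝ) / Q := by
  unfold prq
  congr

theorem prq_pow (M : ℕ) (A : ℕ → Prop) : prq (2 ^ M) A = pr M A := by
  unfold prq pr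
  push_cast
  rfl

theorem prq_nonneg (Q : ℕ) (A : ℕ → Prop) : 0 ≤ prq Q A := by unfold prq; positivity

theorem prq_le_one (Q : ℕ) (A : ℕ → Prop) : prq Q A ≤ 1 := by
  classical
  unfold prq
  rcases Nat.eq_zero_or_pos Q with h | h
  · rw [h]; simp
  · rw [div_le_one (by exact_mod_cast h)]
    have h1 := card_filter_le (range Q) A
    rw [card_range] at h1
    exact_mod_cast h1

theorem split_sum (K N : ℕ) (F : ℕ → ℝ) :
    ∑ c ∈ range (2 ^ K * N), F c = ∑ x ∈ range (2 ^ K), ∑ t ∈ range N, F (x + 2 ^ K * t) := by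
  rw [← sum_congr rfl fun x hx => sum_class K x (mem_range.1 hx) F N, sum_comm]
  apply sum_congr rfl
  intro c _
  rw [sum_ite_eq (range (2 ^ K)) (c % 2 ^ K), if_pos (mem_range.2 (Nat.mod_lt _ (by positivity)))]

theorem Per.periodic {Q : ℕ} {A : ℕ → Prop} [DecidablePred A] (h : Per Q A) :
    ∀ n, (fun x => if A x then (1 : ℝ) else 0) (n + Q) = (fun x => if A x then (1 : ℝ) else 0) n := by
  intro n
  simp only
  have h1 : A (n + Q) ↔ A n := by rw [← h (n + Q), Nat.add_mod_right, h n]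
  by_cases h2 : A n
  · rw [if_pos h2, if_pos (h1.2 h2)]
  · rw [if_neg h2, if_neg (fun h3 => h2 (h1.1 h3))]

/-- independence of the first `j` parities and the residue of `T^j x` -/
theorem prod_prq {j q : ℕ} (hq : 0 < q) (h3 : Nat.Coprime q 3) {A B : ℕ → Prop} (hA : Per (2 ^ j) A) (hB : Per q B) :
    prq (2 ^ j * q) (fun x => A x ∧ B (T^[j] x)) = prq (2 ^ j) A * prq q B := by
  classical
  have h1 : ((((range (2 ^ j * q)).filter fun x => A x ∧ B (T^[j] x)).card : ℕ) : ℝ)
      = (((range (2 ^ j)).filter A).card : ℝ) * (((range q).filter B).card : ℝ) := by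
    rw [← sum_boole, ← sum_boole, ← sum_boole, split_sum, sum_mul]
    apply sum_congr rfl
    intro x hx
    have h2 : ∀ t ∈ range q, (if A (x + 2 ^ j * t) ∧ B (T^[j] (x + 2 ^ j * t)) then (1 : ℝ) else 0)
        = (if A x then (1 : ℝ) else 0) * (fun z => if B z then (1 : ℝ) else 0) (3 ^ od j x * t + T^[j] x) := by
      intro t _
      simp only
      rw [(period j x t).1, add_comm (T^[j] x)]
      have h4 : A (x + 2 ^ j * t) ↔ A x := by rw [← hA, Nat.add_mul_mod_self_left, hA]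
      by_cases h5 : A x
      · by_cases h6 : B (3 ^ od j x * t + T^[j] x)
        · rw [if_pos ⟨h4.2 h5, h6⟩, if_pos h5, if_pos h6, one_mul]
        · rw [if_neg (fun h => h6 h.2), if_neg h6, mul_zero]
      · rw [if_neg (fun h => h5 (h4.1 h.1)), if_neg h5, zero_mul]
    have h7 := Pool.Agent.V11311.PL.sum_affine (F := fun z => if B z then (1 : ℝ) else 0) hq
      hB.periodic (h3.symm.pow_left (od j x)) (T^[j] x)
    rw [sum_congr rfl h2, ← mul_sum]
    exact congrArg _ h7
  rw [prq_eq, prq_eq, prq_eq, h1]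
  push_cast
  rw [mul_div_mul_comm]

theorem Per.and_iter {j q : ℕ} {A B : ℕ → Prop} (hA : Per (2 ^ j) A) (hB : Per q B) :
    Per (2 ^ j * q) (fun x => A x ∧ B (T^[j] x)) := by
  intro x
  have h1 : x = x % (2 ^ j * q) + 2 ^ j * (q * (x / (2 ^ j * q))) := by
    conv_lhs => rw [← Nat.mod_add_div x (2 ^ j * q)]
    rw [mul_assoc]
  have h2 : A (x % (2 ^ j * q)) ↔ A x := by
    rw [← hA (x % (2 ^ j * q)), Nat.mod_mul_right_mod, hA]
  have h4 : B (T^[j] (x % (2 ^ j * q))) ↔ B (T^[j] x) := by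
    conv_rhs => rw [h1, (period j _ _).1]
    rw [← hB (T^[j] (x % (2 ^ j * q)) + _),
      show 3 ^ od j (x % (2 ^ j * q)) * (q * (x / (2 ^ j * q))) = q * (3 ^ od j (x % (2 ^ j * q)) * (x / (2 ^ j * q))) by ring,
      Nat.add_mul_mod_self_left, hB]
  exact and_congr h2 h4

/-- the frequencies of the residue classes modulo `Q` are close to the uniform distribution -/
def Fqq (Q : ℕ) (η : ℝ) (n t : ℕ) : Prop :=
  ∀ r < Q, |(cl (fun x => x % Q = r) n t : ℝ) - t / Q| ≤ η * t

theorem clq_bound {Q : ℕ} (hQ : 0 < Q) {η : ℝ} {n t : ℕ} (h : Fqq Q η n t) (hη : 0 ≤ η) {A : ℕ → Prop}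
    (hA : Per Q A) : |(cl A n t : ℝ) - prq Q A * t| ≤ Q * η * t := by
  classical
  set R := (range Q).filter A with hR
  have h1 : cl A n t = ∑ r ∈ R, cl (fun x => x % Q = r) n t := by
    rw [cl_eq]
    rw [card_eq_sum_card_fiberwise (f := fun s => T^[s] n % Q) (t := R)]
    · apply sum_congr rfl
      intro r hr
      rw [cl_eq, filter_filter]
      congr 1
      apply filter_congr
      intro s _
      constructor
      · exact fun h => h.2
      · intro h
        refine ⟨?_, h⟩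
        rw [← hA, h]
        exact (mem_filter.1 hr).2
    · intro s hs
      rw [mem_coe, mem_filter] at hs
      rw [mem_coe, hR, mem_filter, mem_range]
      exact ⟨Nat.mod_lt _ hQ, (hA _).2 hs.2⟩
  have h2 : prq Q A * t = ∑ _r ∈ R, (t : ℝ) / Q := by
    unfold prq
    rw [sum_const, nsmul_eq_mul]
    ring
  have h3 : (cl A n t : ℝ) - prq Q A * t = ∑ r ∈ R, ((cl (fun x => x % Q = r) n t : ℝ) - t / Q) := by
    rw [sum_sub_distrib, ← h2, h1]
    push_cast
    rfl
  rw [h3]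
  calc |∑ r ∈ R, ((cl (fun x => x % Q = r) n t : ℝ) - t / Q)|
      ≤ ∑ r ∈ R, |(cl (fun x => x % Q = r) n t : ℝ) - t / Q| := abs_sum_le_sum_abs _ _
    _ ≤ ∑ _r ∈ R, η * t := sum_le_sum fun r hr => h r (mem_range.1 (mem_filter.1 hr).1)
    _ = R.card * (η * t) := by rw [sum_const, nsmul_eq_mul]
    _ ≤ Q * (η * t) := by
        apply mul_le_mul_of_nonneg_right _ (by positivity)
        have h4 := card_filter_le (range Q) A
        rw [card_range] at h4
        exact_mod_cast h4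
    _ = Q * η * t := by ring

/-- the set of the `n` with the normal frequencies -/
def Nrq (Q : ℕ) (η : ℝ) (n : ℕ) : Prop := ∃ t : ℕ, TST n t ∧
  |(t : ℝ) - 2 / Real.log (4 / 3) * Real.log n| ≤ η * Real.log n ∧ Fqq Q η n t

theorem nrq_dens : ∃ δ : ℝ, 0 < δ ∧ δ ≤ 1 ∧ (δ = 1 ↔ ∀ n : ℕ, 1 ≤ n → Reaches n) ∧ HasD Reaches δ ∧
    ∀ (Q : ℕ) (η : ℝ), 0 < Q → Nat.Coprime Q 3 → 0 < η → HasD (Nrq Q η) δ := by
  classical
  obtain ⟨δ, hδ0, hδ1, hδ2, hδ3, hmain⟩ := Pool.Agent.Results.MP_2d22f3_nt.CompleteTrajectories.result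
  refine ⟨δ, hδ0, hδ1, hδ2, hasD_of hδ3, fun Q η hQ hQ3 hη => ?_⟩
  obtain ⟨p, _, _, hp, hfreq, _⟩ := hmain Q hQ
  have h3 : ¬ 3 ∣ Q := by
    intro h
    have := Nat.dvd_gcd h (dvd_refl 3)
    rw [hQ3] at this
    omega
  have hp' := hp h3
  have key : ∀ r ∈ range Q, HasD (fun n => ∃ t : ℕ, TST n t ∧
      |(t : ℝ) - 2 / Real.log (4 / 3) * Real.log n| ≤ η * Real.log n ∧
      |(cl (fun x => x % Q = r) n t : ℝ) - t / Q| ≤ η * t) δ := by
    intro r hr
    have hr' := mem_range.1 hr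
    have h4 := (hfreq 2 0 1 η (by norm_num) le_rfl zero_le_one le_rfl hη r hr').2
    refine HasD.congr (hasD_of h4) fun n _ => ?_
    have e : ∀ t : ℕ, visits Q r 2 0 1 n t = cl (fun x => x % Q = r) n t := by
      intro t
      rw [cl_eq]
      unfold Pool.Agent.Results.MP_2d22f3_nt.CompleteTrajectories.visits
      congr 1
      refine filter_congr fun s _ => ?_
      exact ⟨fun h => h.1, fun h => ⟨h, Int.fract_nonneg _, Int.fract_lt_one _⟩⟩
    constructor
    · rintro ⟨t, g1, g2, g3, g4⟩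
      refine ⟨t, ⟨g1, g2⟩, g3, ?_⟩
      rw [e, hp' r hr', sub_zero, one_mul] at g4
      rw [← one_div_mul_eq_div]
      exact g4
    · rintro ⟨t, ⟨g1, g2⟩, g3, g4⟩
      refine ⟨t, g1, g2, g3, ?_⟩
      rw [e, hp' r hr', sub_zero, one_mul]
      rw [← one_div_mul_eq_div] at g4
      exact g4
  have h5 := inter (range Q) _ (hasD_of hδ3) key (fun r _ n _ h => by
    obtain ⟨t, ht, _⟩ := h
    exact (reach_iff n).2 ⟨t, ht⟩)
  refine HasD.congr h5 fun n _ => ?_
  constructor
  · rintro ⟨g1, g2⟩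
    obtain ⟨t, ht, ht1, _⟩ := g2 0 (mem_range.2 hQ)
    refine ⟨t, ht, ht1, fun r hr => ?_⟩
    obtain ⟨t', ht', _, g3⟩ := g2 r (mem_range.2 hr)
    rw [ht.unique ht']
    exact g3
  · rintro ⟨t, ht, ht1, g⟩
    refine ⟨(reach_iff n).2 ⟨t, ht⟩, fun r hr => ⟨t, ht, ht1, g r (mem_range.1 hr)⟩⟩

end Pool.Agent.V11311.RC
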