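import Pool.Agent.V11311.RC.H

/-! Records of the trajectories, part I: the residues of the records. -/

set_option autoImplicit false

namespace Pool.Agent.V11311.RC

open Finset Filter Topology Pool.Agent.V11311.FP

open Pool.Agent.V11311.DV (fl fl_card mem_fl)

open Pool.Agent.Helper894.Collatz (T od er od_add iter_eq T_even T_odd period)

open Pool.Agent.H377R2 (iter_pos)

open Pool.Agent.Results.MP_2d22f3_nt.CompleteTrajectories (Reaches)

open scoped Classical in
/-- the number of the records with the property `A` -/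
noncomputable def RecA (A : ℕ → Prop) (n t : ℕ) : ℕ :=
  ((Icc 1 t).filter fun s => (∀ i < s, T^[s] n < T^[i] n) ∧ A (T^[s] n)).card

theorem recA_upper (A : ℕ → Prop) {n t L : ℕ} (hL : 1 ≤ L) :
    RecA A n t ≤ L + cl (fun x => LR L x ∧ A (T^[L] x)) n t := by
  classical
  unfold RecA
  have h1 : ((Icc 1 t).filter fun s => (∀ i < s, T^[s] n < T^[i] n) ∧ A (T^[s] n)) ⊆ range L ∪
      ((range t).filter fun s => LR L (T^[s] n) ∧ A (T^[L] (T^[s] n))).image fun s => s + L := by
    intro s hs
    rw [mem_filter, mem_Icc] at hs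
    rw [mem_union, mem_range, mem_image]
    rcases Nat.lt_or_ge s L with h2 | h2
    · exact Or.inl h2
    · right
      refine ⟨s - L, ?_, Nat.sub_add_cancel h2⟩
      rw [mem_filter, mem_range]
      refine ⟨by omega, fun i hi hi' => ?_, ?_⟩
      · rw [← Function.iterate_add_apply]
        by_contra hcon
        push Not at hcon
        have h3 := ge_of_pow hcon
        rw [← Function.iterate_add_apply] at h3
        have h4 := hs.2.1 (L - i + (s - L)) (by omega)
        have h5 : i + (L - i + (s - L)) = s := by omega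
        rw [h5] at h3
        omega
      · rw [← Function.iterate_add_apply, show L + (s - L) = s by omega]
        exact hs.2.2
  refine (card_le_card h1).trans ((card_union_le _ _).trans ?_)
  rw [card_range, cl_eq]
  exact Nat.add_le_add_left card_image_le _

theorem recA_lower (A : ℕ → Prop) {n t M : ℕ} (hM : 1 ≤ M) :
    cl (fun x => LR M x ∧ A (T^[M] x)) n t + Rec n t ≤ RecA A n t + cl (LR M) n t + M := by
  classical
  set W := (range t).filter fun s => LR M (T^[s] n) with hW
  set R := (range t).filter fun s => s + M ≤ t ∧ ∀ i < s + M, T^[s + M] n < T^[i] n with hR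
  have h1 : R ⊆ W := by
    intro s hs
    rw [hR, mem_filter] at hs
    rw [hW, mem_filter]
    refine ⟨hs.1, fun i hi hi' => ?_⟩
    rw [← Function.iterate_add_apply]
    by_contra hcon
    push Not at hcon
    have h3 := ge_of_pow hcon
    rw [← Function.iterate_add_apply] at h3
    have h4 := hs.2.2 (M - i + s) (by omega)
    have h5 : i + (M - i + s) = s + M := by omega
    rw [h5] at h3
    omega
  have h2 : Rec n t ≤ M + R.card := by
    unfold Rec
    have h3 : ((Icc 1 t).filter fun s => ∀ i < s, T^[s] n < T^[i] n) ⊆ range M ∪ R.image fun s => s + M := by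
      intro s hs
      rw [mem_filter, mem_Icc] at hs
      rw [mem_union, mem_range, mem_image]
      rcases Nat.lt_or_ge s M with h2 | h2
      · exact Or.inl h2
      · right
        refine ⟨s - M, ?_, Nat.sub_add_cancel h2⟩
        rw [hR, mem_filter, mem_range, Nat.sub_add_cancel h2]
        exact ⟨by omega, hs.1.2, hs.2⟩
    refine (card_le_card h3).trans ((card_union_le _ _).trans ?_)
    rw [card_range]
    exact Nat.add_le_add_left card_image_le _
  have h3 : cl (fun x => LR M x ∧ A (T^[M] x)) n t ≤ RecA A n t + (W \ R).card := by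
    rw [cl_eq]
    have h4 : ((range t).filter fun s => LR M (T^[s] n) ∧ A (T^[M] (T^[s] n))) ⊆
        (R.filter fun s => A (T^[s + M] n)) ∪ (W \ R) := by
      intro s hs
      rw [mem_filter] at hs
      rw [mem_union, mem_filter, Finset.mem_sdiff]
      by_cases h5 : s ∈ R
      · left
        refine ⟨h5, ?_⟩
        rw [add_comm, Function.iterate_add_apply]
        exact hs.2.2
      · right
        rw [hW, mem_filter]
        exact ⟨⟨hs.1, hs.2.1⟩, h5⟩
    refine (card_le_card h4).trans ((card_union_le _ _).trans (Nat.add_le_add_right ?_ _))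
    unfold RecA
    apply card_le_card_of_injOn (fun s => s + M)
    · intro s hs
      rw [mem_coe, mem_filter, hR, mem_filter, mem_range] at hs
      rw [mem_coe, mem_filter, mem_Icc]
      refine ⟨⟨?_, hs.1.2.1⟩, hs.1.2.2, hs.2⟩
      show 1 ≤ s + M
      omega
    · intro a _ b _ h
      simp only at h
      omega
  have h5 : (W \ R).card + R.card = cl (LR M) n t := by
    rw [cl_eq, card_sdiff_add_card_eq_card h1]
  omega

theorem sandwich {P Q R : ℕ → Prop} {δ : ℝ} (hP : HasD P δ) (hQ : HasD Q δ) (n0 : ℕ)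
    (h : ∀ n, 0 < n → n0 ≤ n → P n → R n) (h' : ∀ n, 0 < n → R n → Q n) : HasD R δ := by
  apply tendsto_of_tendsto_of_tendsto_of_le_of_le (tail_dens hP n0) hQ
  · intro N
    apply div_le_div_of_nonneg_right _ (Nat.cast_nonneg N)
    exact Nat.cast_le.2 (cN_mono (fun n hn g => h n hn g.2 g.1) N)
  · intro N
    apply div_le_div_of_nonneg_right _ (Nat.cast_nonneg N)
    exact Nat.cast_le.2 (cN_mono h' N)

theorem inter2 {P P' Q : ℕ → Prop} {δ : ℝ} (hQ : HasD Q δ) (hP : HasD P δ) (hP' : HasD P' δ)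
    (h : ∀ n, 0 < n → P n → Q n) (h' : ∀ n, 0 < n → P' n → Q n) : HasD (fun n => P n ∧ P' n) δ := by
  have h1 := inter (range 2) (fun i => if i = 0 then P else P') hQ
    (fun i _ => by
      by_cases hi : i = 0
      · simp only [hi, if_true]; exact hP
      · simp only [hi, if_false]; exact hP')
    (fun i _ n hn g => by
      by_cases hi : i = 0
      · simp only [hi, if_true] at g
        exact h n hn g
      · simp only [hi, if_false] at g
        exact h' n hn g)
  refine HasD.congr h1 fun n hn => ?_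
  constructor
  · rintro ⟨_, g⟩
    have g1 := g 0 (by simp)
    have g2 := g 1 (by simp)
    simp only [if_true] at g1
    simp only [one_ne_zero, if_false] at g2
    exact ⟨g1, g2⟩
  · rintro ⟨g1, g2⟩
    refine ⟨h n hn g1, fun i _ => ?_⟩
    by_cases hi : i = 0
    · simp only [hi, if_true]; exact g1
    · simp only [hi, if_false]; exact g2

theorem LR_per (M : ℕ) : Per (2 ^ M) (LR M) := LR_mod M

/-- the law of large numbers for the records with a given residue -/
theorem recA_law {δ ρ : ℝ} (hQ : HasD Reaches δ)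
    (hn : ∀ (Q : ℕ) (η : ℝ), 0 < Q → Nat.Coprime Q 3 → 0 < η → HasD (Nrq Q η) δ)
    (hn' : ∀ (M : ℕ) (η : ℝ), 0 < η → HasD (Nrm M η) δ)
    (hρ : Tendsto (fun M => pr M (PC M)) atTop (𝓝 ρ)) {q : ℕ} (hq : 0 < q) (h3 : Nat.Coprime q 3)
    {A : ℕ → Prop} (hA : Per q A) (ε : ℝ) (hε : 0 < ε) :
    HasD (fun n => ∃ t : ℕ, TST n t ∧ |(t : ℝ) - 2 / Real.log (4 / 3) * Real.log n| ≤ ε * Real.log n ∧
      |(Rec n t : ℝ) - ρ * t| ≤ ε * t ∧ |(RecA A n t : ℝ) - ρ * prq q A * t| ≤ ε * t) δ := by
  classical
  have hl43 : 0 < Real.log (4 / 3) := Real.log_pos (by norm_num)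
  set c := 2 / Real.log (4 / 3) with hc
  have hc0 : 0 < c := by positivity
  have hPC : ∀ᶠ M : ℕ in atTop, |pr M (PC M) - ρ| < ε / 8 := by
    have := Metric.tendsto_nhds.1 hρ (ε / 8) (by positivity)
    simpa only [Real.dist_eq] using this
  obtain ⟨M, hM, hM1⟩ := (hPC.and (eventually_ge_atTop 1)).exists
  set Q : ℕ := 2 ^ M * q with hQdef
  have hQ0 : 0 < Q := by positivity
  have hQR : (0 : ℝ) < Q := by exact_mod_cast hQ0
  have hQ3 : Nat.Coprime Q 3 := Nat.Coprime.mul_left (Nat.Coprime.pow_left _ (by norm_num)) h3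
  set η := min (ε / (8 * Q)) (c / 2) with hη
  have hη0 : 0 < η := lt_min (by positivity) (by positivity)
  have hη1 : Q * η ≤ ε / 8 := by
    have h1 : η ≤ ε / (8 * Q) := min_le_left _ _
    calc Q * η ≤ Q * (ε / (8 * Q)) := mul_le_mul_of_nonneg_left h1 hQR.le
      _ = ε / 8 := by field_simp
  have hη3 : η ≤ c / 2 := min_le_right _ _
  set ε1 := min (ε / 8) ε with hε1
  have hrec := rec_law hQ hn' hρ (ε / 8) (by positivity)
  have hnq := hn Q η hQ0 hQ3 hη0
  have hbig : ∀ᶠ n : ℕ in atTop, 8 * M / ε ≤ c / 2 * Real.log n := by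
    have h1 : Tendsto (fun n : ℕ => c / 2 * Real.log n) atTop atTop :=
      (Real.tendsto_log_atTop.comp tendsto_natCast_atTop_atTop).const_mul_atTop (by positivity)
    exact h1.eventually (eventually_ge_atTop _)
  obtain ⟨n0, hn0⟩ := eventually_atTop.1 hbig
  have hboth := inter2 hQ hrec hnq
    (fun n _ g => by obtain ⟨t, ht, _⟩ := g; exact (reach_iff n).2 ⟨t, ht⟩)
    (fun n _ g => by obtain ⟨t, ht, _⟩ := g; exact (reach_iff n).2 ⟨t, ht⟩)
  refine sandwich hboth hQ n0 ?_ (fun n _ g => by obtain ⟨t, ht, _⟩ := g; exact (reach_iff n).2 ⟨t, ht⟩)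
  rintro n hnpos hnn0 ⟨⟨t, ht, ht1, hr⟩, t', ht', ht2, hF⟩
  rw [← ht.unique ht'] at hF ht2
  have hlog : 0 ≤ Real.log n := Real.log_natCast_nonneg n
  have ht0 : (0 : ℝ) ≤ t := Nat.cast_nonneg t
  have hMt : (M : ℝ) ≤ ε / 8 * t := by
    have g3 := hn0 n hnn0
    have g4 : c / 2 * Real.log n ≤ t := by
      have g5 := (abs_le.1 ht2).1
      have g6 : η * Real.log n ≤ c / 2 * Real.log n := mul_le_mul_of_nonneg_right hη3 hlog
      linarith
    have g5 : 8 * M / ε ≤ t := g3.trans g4
    rw [div_le_iff₀ hε] at g5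
    linarith
  refine ⟨t, ht, ht1.trans (mul_le_mul_of_nonneg_right (by linarith) hlog), ?_, ?_⟩
  · exact hr.trans (mul_le_mul_of_nonneg_right (by linarith) ht0)
  -- the two counts
  have hA1 := clq_bound hQ0 hF hη0.le ((LR_per M).and_iter hA)
  have hA2 := clq_bound hQ0 hF hη0.le ((LR_per M).and_iter (q := q) (B := fun _ => True) (fun _ => Iff.rfl))
  rw [prod_prq hq h3 (LR_per M) hA, prq_pow, pr_LR] at hA1
  have e1 : prq q (fun _ => True) = 1 := by
    rw [prq_eq, filter_true, card_range]
    exact div_self (by positivity)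
  have e0 := prod_prq (j := M) (B := fun _ => True) hq h3 (LR_per M) (fun _ => Iff.rfl)
  rw [e1, mul_one, prq_pow, pr_LR] at e0
  have hA2 : |(cl (fun x => LR M x ∧ True) n t : ℝ) - pr M (PC M) * t| ≤ Q * η * t := by
    rw [← e0]
    exact hA2
  have e2 : cl (fun x => LR M x ∧ True) n t = cl (LR M) n t := by simp only [and_true]
  rw [e2] at hA2
  have hU : (RecA A n t : ℝ) ≤ M + cl (fun x => LR M x ∧ A (T^[M] x)) n t := by exact_mod_cast recA_upper A hM1
  have hLw : (cl (fun x => LR M x ∧ A (T^[M] x)) n t : ℝ) + Rec n t ≤ RecA A n t + cl (LR M) n t + M := by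
    exact_mod_cast recA_lower A hM1
  have hp0 := prq_nonneg q A
  have hp1 := prq_le_one q A
  have e3 : Q * η * t ≤ ε / 8 * t := mul_le_mul_of_nonneg_right hη1 ht0
  have e4 : |pr M (PC M) * t - ρ * t| ≤ ε / 8 * t := by
    rw [← sub_mul, abs_mul, abs_of_nonneg ht0]
    exact mul_le_mul_of_nonneg_right hM.le ht0
  have e5 : |pr M (PC M) * prq q A * t - ρ * prq q A * t| ≤ ε / 8 * t := by
    have : pr M (PC M) * prq q A * t - ρ * prq q A * t = prq q A * (pr M (PC M) * t - ρ * t) := by ring
    rw [this, abs_mul, abs_of_nonneg hp0]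
    calc prq q A * |pr M (PC M) * t - ρ * t| ≤ 1 * |pr M (PC M) * t - ρ * t| :=
          mul_le_mul_of_nonneg_right hp1 (abs_nonneg _)
      _ ≤ ε / 8 * t := by rw [one_mul]; exact e4
  rw [abs_le] at hA1 hA2 hr e4 e5 ⊢
  constructor
  · linarith [hA1.1, hA2.2, hr.1, e4.2, e5.1]
  · linarith [hA1.2, e5.2]

end Pool.Agent.V11311.RC
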