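import Pool.Agent.V11311.RC.I

/-! Records of the trajectories, part J: the iterates of the first descent map and their stopping times. -/

set_option autoImplicit false

namespace Pool.Agent.V11311.RC

open Finset Filter Topology Pool.Agent.V11311.FP

open Pool.Agent.Helper894.Collatz (T od er od_add iter_eq T_even T_odd period)

open Pool.Agent.H377R2 (iter_pos)

/-- the records of `n` and of the first smaller term -/
theorem split_rec {n t : ℕ} (h1 : 1 < n) (ht : TST n t) : ∃ σ : ℕ, 1 ≤ σ ∧ σ ≤ t ∧ S n = T^[σ] n ∧ T^[σ] n < n ∧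
    0 < T^[σ] n ∧ TST (T^[σ] n) (t - σ) ∧
    ∀ s : ℕ, (s ∈ Icc 1 t ∧ ∀ i < s, T^[s] n < T^[i] n) ↔
      s = σ ∨ ∃ s' : ℕ, (s' ∈ Icc 1 (t - σ) ∧ ∀ i < s', T^[s'] (T^[σ] n) < T^[i] (T^[σ] n)) ∧ s' + σ = s := by
  classical
  have htpos : 0 < t := by
    rcases Nat.eq_zero_or_pos t with h | h
    · exfalso
      have h2 := ht.1
      rw [h] at h2
      simp only [Function.iterate_zero, id_eq] at h2
      omega
    · exact h
  set A := {k : ℕ | 0 < k ∧ T^[k] n < n} with hA
  have hne : A.Nonempty := ⟨t, htpos, by rw [ht.1]; exact h1⟩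
  obtain ⟨hσ0, hσ1⟩ := Nat.sInf_mem hne
  have hmin : ∀ k, 0 < k → k < sInf A → n ≤ T^[k] n := by
    intro k hk hk'
    by_contra hcon
    push Not at hcon
    exact absurd (Nat.sInf_le (show k ∈ A from ⟨hk, hcon⟩)) (not_le.2 hk')
  have hσt : sInf A ≤ t := Nat.sInf_le (show t ∈ A from ⟨htpos, by rw [ht.1]; exact h1⟩)
  have hSn : S n = T^[sInf A] n := rfl
  set σ := sInf A with hσ
  refine ⟨σ, hσ0, hσt, hSn, hσ1, iter_pos (by omega) σ, ?_, ?_⟩
  · refine ⟨by rw [← Function.iterate_add_apply, Nat.sub_add_cancel hσt, ht.1], fun j hj => ?_⟩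
    rw [← Function.iterate_add_apply]
    exact ht.2 _ (by omega)
  · intro s
    rw [mem_Icc]
    constructor
    · rintro ⟨⟨h4, h5⟩, h6⟩
      rcases lt_trichotomy s σ with h7 | h7 | h7
      · exfalso
        have h8 := hmin s (by omega) h7
        have h9 := h6 0 (by omega)
        simp only [Function.iterate_zero, id_eq] at h9
        omega
      · exact Or.inl h7
      · right
        refine ⟨s - σ, ⟨?_, fun i hi => ?_⟩, Nat.sub_add_cancel h7.le⟩
        · rw [mem_Icc]
          omega
        · rw [← Function.iterate_add_apply, ← Function.iterate_add_apply, Nat.sub_add_cancel h7.le]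
          exact h6 _ (by omega)
    · rintro (rfl | ⟨s', ⟨h4, h4'⟩, rfl⟩)
      · refine ⟨⟨hσ0, hσt⟩, fun i hi => ?_⟩
        rcases Nat.eq_zero_or_pos i with h5 | h5
        · rw [h5]
          exact hσ1
        · exact hσ1.trans_le (hmin i h5 hi)
      · rw [mem_Icc] at h4
        refine ⟨⟨by omega, by omega⟩, fun i hi => ?_⟩
        rw [Function.iterate_add_apply]
        rcases Nat.lt_or_ge i σ with h5 | h5
        · have h6 := h4' 0 (by omega)
          simp only [Function.iterate_zero, id_eq] at h6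
          rcases Nat.eq_zero_or_pos i with h7 | h7
          · rw [h7]
            exact h6.trans hσ1
          · exact (h6.trans hσ1).trans_le (hmin i h7 h5)
        · have h6 := h4' (i - σ) (by omega)
          rw [← Function.iterate_add_apply (m := i - σ), Nat.sub_add_cancel h5] at h6
          exact h6

theorem RecA_eq (A : ℕ → Prop) (n t : ℕ) [DecidablePred fun s => (∀ i < s, T^[s] n < T^[i] n) ∧ A (T^[s] n)] :
    RecA A n t = ((Icc 1 t).filter fun s => (∀ i < s, T^[s] n < T^[i] n) ∧ A (T^[s] n)).card := by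
  unfold RecA
  congr

theorem Rec_eq (n t : ℕ) [DecidablePred fun s => ∀ i < s, T^[s] n < T^[i] n] :
    Rec n t = ((Icc 1 t).filter fun s => ∀ i < s, T^[s] n < T^[i] n).card := by
  unfold Rec
  congr

theorem RecA_true (n t : ℕ) : RecA (fun _ => True) n t = Rec n t := by
  classical
  rw [RecA_eq, Rec_eq]
  congr 1
  apply filter_congr
  intro s _
  rw [and_true]

theorem recA_split (A : ℕ → Prop) [DecidablePred A] {n t σ : ℕ} (hσ1 : 1 ≤ σ)
    (h : ∀ s : ℕ, (s ∈ Icc 1 t ∧ ∀ i < s, T^[s] n < T^[i] n) ↔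
      s = σ ∨ ∃ s' : ℕ, (s' ∈ Icc 1 (t - σ) ∧ ∀ i < s', T^[s'] (T^[σ] n) < T^[i] (T^[σ] n)) ∧ s' + σ = s) :
    RecA A n t = RecA A (T^[σ] n) (t - σ) + if A (T^[σ] n) then 1 else 0 := by
  classical
  have e1 : ((Icc 1 t).filter fun s => (∀ i < s, T^[s] n < T^[i] n) ∧ A (T^[s] n))
      = (((Icc 1 (t - σ)).filter fun s => (∀ i < s, T^[s] (T^[σ] n) < T^[i] (T^[σ] n)) ∧ A (T^[s] (T^[σ] n))).image
        fun s => s + σ) ∪ (if A (T^[σ] n) then {σ} else ∅) := by
    ext s
    rw [mem_filter, ← and_assoc, h s, mem_union, mem_image]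
    constructor
    · rintro ⟨h1 | ⟨s', ⟨h1, h2⟩, h3⟩, h4⟩
      · right
        rw [h1] at h4
        rw [if_pos h4, h1, mem_singleton]
      · left
        refine ⟨s', ?_, h3⟩
        rw [mem_filter]
        refine ⟨h1, h2, ?_⟩
        rw [← Function.iterate_add_apply, h3]
        exact h4
    · rintro (⟨s', h1, h3⟩ | h1)
      · rw [mem_filter] at h1
        refine ⟨Or.inr ⟨s', ⟨h1.1, h1.2.1⟩, h3⟩, ?_⟩
        rw [← h3, Function.iterate_add_apply]
        exact h1.2.2
      · by_cases h2 : A (T^[σ] n)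
        · rw [if_pos h2, mem_singleton] at h1
          rw [h1]
          exact ⟨Or.inl rfl, h2⟩
        · rw [if_neg h2] at h1
          exact absurd h1 (notMem_empty _)
  have e2 : ((Icc 1 t).filter fun s => (∀ i < s, T^[s] n < T^[i] n) ∧ A (T^[s] n)).card
      = ((Icc 1 (t - σ)).filter fun s => (∀ i < s, T^[s] (T^[σ] n) < T^[i] (T^[σ] n)) ∧ A (T^[s] (T^[σ] n))).card
        + if A (T^[σ] n) then 1 else 0 := by
    rw [e1, card_union_of_disjoint, card_image_of_injective _ (add_left_injective σ)]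
    · by_cases h2 : A (T^[σ] n)
      · rw [if_pos h2, if_pos h2, card_singleton]
      · rw [if_neg h2, if_neg h2, card_empty]
    · rw [disjoint_left]
      intro s hs hs'
      rw [mem_image] at hs
      obtain ⟨s', h4, h5⟩ := hs
      rw [mem_filter, mem_Icc] at h4
      by_cases h2 : A (T^[σ] n)
      · rw [if_pos h2, mem_singleton] at hs'
        omega
      · rw [if_neg h2] at hs'
        exact absurd hs' (notMem_empty _)
  rw [RecA_eq A n t, RecA_eq A (T^[σ] n) (t - σ)]
  exact e2

theorem sum_Icc_shift (r : ℕ) (f : ℕ → ℕ) : ∑ j ∈ Icc 1 (r + 1), f j = f 1 + ∑ j ∈ Icc 1 r, f (j + 1) := by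
  induction r with
  | zero => simp
  | succ r ih =>
    rw [sum_Icc_succ_top (by omega), ih, sum_Icc_succ_top (by omega)]
    ring

theorem steps_count (A : ℕ → Prop) [DecidablePred A] (n : ℕ) : 0 < n → ∀ t : ℕ, TST n t →
    ((Icc 1 (Rec n t)).filter fun j => A (S^[j] n)).card = RecA A n t := by
  classical
  induction n using Nat.strong_induction_on with
  | _ n ih =>
    intro hn t ht
    rcases Nat.lt_or_ge 1 n with h1 | h1
    · obtain ⟨σ, hσ1, hσt, hS, hlt, hpos, htm, hsplit⟩ := split_rec h1 ht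
      have h2 := recA_split A hσ1 hsplit
      have h3 := recA_split (fun _ => True) hσ1 hsplit
      rw [RecA_true, RecA_true, if_pos trivial] at h3
      have h4 := ih _ hlt hpos (t - σ) htm
      rw [h2, h3, ← h4, card_filter, card_filter, sum_Icc_shift, Function.iterate_one, hS, add_comm]
      congr 1
      apply sum_congr rfl
      intro j _
      rw [Function.iterate_succ_apply, hS]
    · obtain rfl : n = 1 := by omega
      have h2 : t = 0 := by
        by_contra hcon
        exact ht.2 0 (by omega) rfl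
      have h3 : Rec 1 t = 0 := by
        rw [h2]
        unfold Rec
        simp
      rw [h3, h2]
      unfold RecA
      simp

/-- the stopping time of `x` is `k` -/
def stp (k x : ℕ) : Prop := 1 ≤ k ∧ (∀ i, 1 ≤ i → i < k → x ≤ T^[i] x) ∧ T^[k] x < x

/-- the first stopping times are those of the list -/
def Pat : List ℕ → ℕ → Prop
  | [], _ => True
  | k :: ks, x => stp k x ∧ Pat ks (T^[k] x)

theorem stp_S {k x : ℕ} (h : stp k x) : S x = T^[k] x := by
  unfold S
  congr 2
  apply le_antisymm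
  · exact Nat.sInf_le ⟨h.1, h.2.2⟩
  · have hne : {j : ℕ | 0 < j ∧ T^[j] x < x}.Nonempty := ⟨k, h.1, h.2.2⟩
    obtain ⟨h1, h2⟩ := Nat.sInf_mem hne
    by_contra hcon
    push Not at hcon
    exact absurd (h.2.1 _ h1 hcon) (not_le.2 h2)

theorem pat_iff (ks : List ℕ) : ∀ x, Pat ks x ↔ ∀ (i : ℕ) (hi : i < ks.length), stp ks[i] (S^[i] x) := by
  induction ks with
  | nil => intro x; simp [Pat]
  | cons k ks ih =>
    intro x
    rw [Pat, ih]
    constructor
    · rintro ⟨h1, h2⟩ i hi
      cases i with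
      | zero => exact h1
      | succ i =>
        rw [Function.iterate_succ_apply, stp_S h1]
        exact h2 i (by simpa using hi)
    · intro h
      have h1 := h 0 (by simp)
      refine ⟨h1, fun i hi => ?_⟩
      have h2 := h (i + 1) (by simpa using hi)
      rw [Function.iterate_succ_apply] at h2
      have h3 : S x = T^[k] x := stp_S h1
      rw [h3] at h2
      exact h2

/-- the coefficient stopping time of `x` is `k` -/
def stpP (k x : ℕ) : Prop := 1 ≤ k ∧ (∀ i, 1 ≤ i → i < k → 2 ^ i ≤ 3 ^ od i x) ∧ 3 ^ od k x < 2 ^ k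

/-- the same for the coefficient stopping times -/
def PatP : List ℕ → ℕ → Prop
  | [], _ => True
  | k :: ks, x => stpP k x ∧ PatP ks (T^[k] x)

theorem stpP_per (k : ℕ) : Per (2 ^ k) (stpP k) := by
  intro x
  unfold stpP
  refine and_congr_right fun _ => and_congr ?_ ?_
  · refine forall_congr' fun i => imp_congr_right fun _ => forall_congr' fun hi => ?_
    rw [od_mod k x hi.le]
  · rw [od_mod k x le_rfl]

theorem PatP_per (ks : List ℕ) : Per (2 ^ ks.sum) (PatP ks) := by
  induction ks with
  | nil => exact fun _ => Iff.rfl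
  | cons k ks ih =>
    have h := (stpP_per k).and_iter ih
    rw [← pow_add] at h
    rw [List.sum_cons]
    exact h

theorem PatP_dens (ks : List ℕ) : prq (2 ^ ks.sum) (PatP ks) = (ks.map fun k => prq (2 ^ k) (stpP k)).prod := by
  classical
  induction ks with
  | nil =>
    rw [List.map_nil, List.prod_nil, List.sum_nil, pow_zero]
    have : PatP [] = fun _ => True := rfl
    rw [this, prq_eq, filter_true, card_range]
    simp
  | cons k ks ih =>
    rw [List.map_cons, List.prod_cons, ← ih, List.sum_cons, pow_add]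
    exact prod_prq (by positivity) (Nat.Coprime.pow_left _ (by norm_num)) (stpP_per k) (PatP_per ks)

theorem stp_iff {k x : ℕ} (hx : k * 4 ^ k < x) : stp k x ↔ stpP k x := by
  constructor
  · rintro ⟨h1, h2, h3⟩
    refine ⟨h1, fun i hi hik => ?_, ?_⟩
    · by_contra hcon
      push Not at hcon
      exact absurd (lt_of_pow hik.le hx hcon) (not_lt.2 (h2 i hi hik))
    · by_contra hcon
      push Not at hcon
      exact absurd (ge_of_pow hcon) (not_le.2 h3)
  · rintro ⟨h1, h2, h3⟩
    exact ⟨h1, fun i hi hik => ge_of_pow (h2 i hi hik), lt_of_pow le_rfl hx h3⟩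

/-- a bound for the exceptions -/
def Lx : List ℕ → ℕ
  | [] => 0
  | k :: ks => k * 4 ^ k + 2 ^ k * Lx ks

theorem pat_large (ks : List ℕ) : ∀ x, Lx ks < x → (Pat ks x ↔ PatP ks x) := by
  induction ks with
  | nil => intro x _; exact Iff.rfl
  | cons k ks ih =>
    intro x hx
    rw [Lx] at hx
    have h1 : k * 4 ^ k < x := by omega
    have h2 : Lx ks < T^[k] x := by
      have h3 := iter_eq k x
      have h4 : x ≤ 2 ^ k * T^[k] x := by
        rw [h3]
        calc x = 1 * x := (one_mul x).symm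
          _ ≤ 3 ^ od k x * x := Nat.mul_le_mul_right x (Nat.one_le_pow _ _ (by norm_num))
          _ ≤ _ := Nat.le_add_right _ _
      have h5 : 2 ^ k * Lx ks < 2 ^ k * T^[k] x := by omega
      exact Nat.lt_of_mul_lt_mul_left h5
    rw [Pat, PatP, stp_iff h1, ih _ h2]

theorem recA_diff {A B : ℕ → Prop} {L : ℕ} (h : ∀ x, L < x → (A x ↔ B x)) {n t : ℕ} (ht : TST n t) :
    RecA A n t ≤ RecA B n t + (L + 1) := by
  classical
  unfold RecA
  have h1 : ((Icc 1 t).filter fun s => (∀ i < s, T^[s] n < T^[i] n) ∧ A (T^[s] n)) ⊆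
      ((Icc 1 t).filter fun s => (∀ i < s, T^[s] n < T^[i] n) ∧ B (T^[s] n)) ∪
      ((range (t + 1)).filter fun s => T^[s] n ≤ L) := by
    intro s hs
    rw [mem_filter] at hs
    rw [mem_union, mem_filter, mem_filter]
    rcases Nat.lt_or_ge L (T^[s] n) with h2 | h2
    · left
      exact ⟨hs.1, hs.2.1, (h _ h2).1 hs.2.2⟩
    · right
      have h3 := mem_Icc.1 hs.1
      exact ⟨mem_range.2 (by omega), h2⟩
  exact (card_le_card h1).trans ((card_union_le _ _).trans (Nat.add_le_add_left (small_card ht L) _))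

/-- the density of the integers with stopping time `k` -/
theorem stpP_prob (k : ℕ) (hk : 1 ≤ k) : prq (2 ^ k) (stpP k) = pr (k - 1) (NC (k - 1)) - pr k (NC k) := by
  classical
  obtain ⟨j, rfl⟩ : ∃ j, k = j + 1 := ⟨k - 1, by omega⟩
  rw [Nat.add_sub_cancel]
  have h1 := prod_prq (j := j) (q := 2) (B := fun _ => True) (by norm_num) (by norm_num)
    (show Per (2 ^ j) (NC j) from NC_mod j) (fun _ => Iff.rfl)
  have e1 : prq 2 (fun _ => True) = 1 := by
    rw [prq_eq, filter_true, card_range]
    norm_num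
  rw [e1, mul_one, ← pow_succ] at h1
  simp only [and_true] at h1
  rw [prq_pow j] at h1
  rw [← h1, ← prq_pow, prq_eq, prq_eq, prq_eq, ← sub_div]
  congr 1
  rw [eq_sub_iff_add_eq, ← Nat.cast_add, ← card_union_of_disjoint]
  · congr 2
    ext x
    rw [mem_union, mem_filter, mem_filter, mem_filter]
    constructor
    · rintro (⟨h2, -, h3, -⟩ | ⟨h2, h3⟩)
      · exact ⟨h2, fun i hi hij => h3 i hi (by omega)⟩
      · exact ⟨h2, fun i hi hij => h3 i hi (by omega)⟩
    · rintro ⟨h2, h3⟩
      by_cases h4 : 2 ^ (j + 1) ≤ 3 ^ od (j + 1) x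
      · right
        refine ⟨h2, fun i hi hij => ?_⟩
        rcases Nat.lt_or_ge i (j + 1) with h5 | h5
        · exact h3 i hi (by omega)
        · rw [show i = j + 1 by omega]
          exact h4
      · left
        exact ⟨h2, hk, fun i hi hij => h3 i hi (by omega), not_le.1 h4⟩
  · rw [disjoint_left]
    intro x h2 h3
    rw [mem_filter] at h2 h3
    exact absurd (h3.2 (j + 1) (by omega) le_rfl) (not_le.2 h2.2.2.2)

end Pool.Agent.V11311.RC
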